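import Mathlib

/-!
# Averages of a power bounded element and a factorization theorem of Cohen type

`B` is a complex unital Banach algebra and `m ∈ B` is power bounded. `avg m N` is the average of
`1, m, …, m ^ N`. The elements `x` with `x * avg m N → 0` form a closed left ideal `Jr m`. Every
element `F` of `Jr m` factors as `F = H * z` with `H, z ∈ Jr m` and `z` commuting with `m`.
-/

set_option autoImplicit false

namespace Pool.Agent.L7h53.I2

open Filter Topology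

variable {B : Type*} [NormedRing B] [NormedAlgebra ℂ B]

/-- The average of the first `N + 1` powers of `m`. -/
noncomputable def avg (m : B) (N : ℕ) : B :=
  ((N : ℂ) + 1)⁻¹ • ∑ j ∈ Finset.range (N + 1), m ^ j

lemma commute_avg (m : B) (N : ℕ) : Commute m (avg m N) := by
  unfold avg
  refine Commute.smul_right ?_ _
  exact Commute.sum_right _ _ _ fun j _ => (Commute.refl m).pow_right j

lemma commute_avg_of {m x : B} (h : Commute x m) (N : ℕ) : Commute x (avg m N) := by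
  unfold avg
  refine Commute.smul_right ?_ _
  exact Commute.sum_right _ _ _ fun j _ => h.pow_right j

lemma commute_avg_avg (m : B) (M N : ℕ) : Commute (avg m M) (avg m N) :=
  commute_avg_of (commute_avg m M).symm N

lemma norm_cast_succ (N : ℕ) : ‖((N : ℂ) + 1)⁻¹‖ = ((N : ℝ) + 1)⁻¹ := by
  rw [norm_inv]
  congr 1
  have : ((N : ℂ) + 1) = ((N + 1 : ℕ) : ℂ) := by push_cast; ring
  rw [this, Complex.norm_natCast]
  push_cast
  ring

lemma norm_avg_le {m : B} {C : ℝ} (hm : ∀ j : ℕ, ‖m ^ j‖ ≤ C) (N : ℕ) : ‖avg m N‖ ≤ C := by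
  unfold avg
  rw [norm_smul, norm_cast_succ]
  have h1 : ‖∑ j ∈ Finset.range (N + 1), m ^ j‖ ≤ ((N : ℝ) + 1) * C := by
    refine (norm_sum_le _ _).trans ?_
    refine (Finset.sum_le_card_nsmul _ _ C fun j _ => hm j).trans ?_
    rw [Finset.card_range, nsmul_eq_mul]
    push_cast
    rfl
  have h2 : (0 : ℝ) < (N : ℝ) + 1 := by positivity
  calc ((N : ℝ) + 1)⁻¹ * ‖∑ j ∈ Finset.range (N + 1), m ^ j‖
      ≤ ((N : ℝ) + 1)⁻¹ * (((N : ℝ) + 1) * C) := by gcongr
    _ = C := by field_simp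

lemma one_sub_mul_avg (m : B) (N : ℕ) :
    (1 - m) * avg m N = ((N : ℂ) + 1)⁻¹ • (1 - m ^ (N + 1)) := by
  unfold avg
  rw [mul_smul_comm, mul_neg_geom_sum]

lemma tendsto_inv_succ : Tendsto (fun N : ℕ => ((N : ℝ) + 1)⁻¹) atTop (𝓝 0) := by
  have h := tendsto_one_div_add_atTop_nhds_zero_nat (𝕜 := ℝ)
  simpa only [one_div] using h

lemma tendsto_one_sub_mul_avg {m : B} {C : ℝ} (hm : ∀ j : ℕ, ‖m ^ j‖ ≤ C) :
    Tendsto (fun N => (1 - m) * avg m N) atTop (𝓝 0) := by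
  rw [tendsto_zero_iff_norm_tendsto_zero]
  have h : Tendsto (fun N : ℕ => ((N : ℝ) + 1)⁻¹ * (C + C)) atTop (𝓝 0) := by
    simpa using tendsto_inv_succ.mul_const (C + C)
  refine squeeze_zero (fun N => norm_nonneg _) (fun N => ?_) h
  rw [one_sub_mul_avg, norm_smul, norm_cast_succ]
  gcongr
  refine (norm_sub_le _ _).trans (add_le_add ?_ (hm _))
  simpa using hm 0

/-- `1 - avg m N` is a multiple of `1 - m`. -/
lemma exists_one_sub_avg (m : B) (N : ℕ) :
    ∃ q : B, 1 - avg m N = q * (1 - m) ∧ 1 - avg m N = (1 - m) * q := by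
  refine ⟨((N : ℂ) + 1)⁻¹ • ∑ j ∈ Finset.range (N + 1), ∑ i ∈ Finset.range j, m ^ i, ?_, ?_⟩
  · have h0 : ((N : ℂ) + 1) ≠ 0 := by
      have : ((N : ℂ) + 1) = ((N + 1 : ℕ) : ℂ) := by push_cast; ring
      rw [this]; exact_mod_cast Nat.succ_ne_zero N
    have h1 : (1 : B) = ((N : ℂ) + 1)⁻¹ • ∑ j ∈ Finset.range (N + 1), (1 : B) := by
      rw [Finset.sum_const, Finset.card_range, ← Nat.cast_smul_eq_nsmul ℂ, smul_smul]
      push_cast
      rw [inv_mul_cancel₀ h0, one_smul]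
    conv_lhs => rw [h1]
    unfold avg
    rw [← smul_sub, ← Finset.sum_sub_distrib, smul_mul_assoc, Finset.sum_mul]
    congr 1
    refine Finset.sum_congr rfl fun j _ => ?_
    rw [geom_sum_mul_neg]
  · have h0 : ((N : ℂ) + 1) ≠ 0 := by
      have : ((N : ℂ) + 1) = ((N + 1 : ℕ) : ℂ) := by push_cast; ring
      rw [this]; exact_mod_cast Nat.succ_ne_zero N
    have h1 : (1 : B) = ((N : ℂ) + 1)⁻¹ • ∑ j ∈ Finset.range (N + 1), (1 : B) := by
      rw [Finset.sum_const, Finset.card_range, ← Nat.cast_smul_eq_nsmul ℂ, smul_smul]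
      push_cast
      rw [inv_mul_cancel₀ h0, one_smul]
    conv_lhs => rw [h1]
    unfold avg
    rw [← smul_sub, ← Finset.sum_sub_distrib, mul_smul_comm, Finset.mul_sum]
    congr 1
    refine Finset.sum_congr rfl fun j _ => ?_
    rw [mul_neg_geom_sum]

/-- The left ideal of all `x` with `x * avg m N → 0`. -/
def Jr (m : B) : Submodule ℂ B where
  carrier := {x | Tendsto (fun N => x * avg m N) atTop (𝓝 0)}
  add_mem' := by
    intro x y hx hy
    have := Tendsto.add hx hy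
    simp only [Set.mem_ofPred_eq] at *
    simpa only [add_mul, add_zero] using this
  zero_mem' := by simp
  smul_mem' := by
    intro c x hx
    have := Tendsto.const_smul hx c
    simp only [Set.mem_ofPred_eq] at *
    simpa only [smul_mul_assoc, smul_zero] using this

lemma mem_Jr {m x : B} : x ∈ Jr m ↔ Tendsto (fun N => x * avg m N) atTop (𝓝 0) := Iff.rfl

/-- The right ideal of all `x` with `avg m N * x → 0`. -/
def Jl (m : B) : Submodule ℂ B where
  carrier := {x | Tendsto (fun N => avg m N * x) atTop (𝓝 0)}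
  add_mem' := by
    intro x y hx hy
    have := Tendsto.add hx hy
    simp only [Set.mem_ofPred_eq] at *
    simpa only [mul_add, add_zero] using this
  zero_mem' := by simp
  smul_mem' := by
    intro c x hx
    have := Tendsto.const_smul hx c
    simp only [Set.mem_ofPred_eq] at *
    simpa only [mul_smul_comm, smul_zero] using this

lemma mem_Jl {m x : B} : x ∈ Jl m ↔ Tendsto (fun N => avg m N * x) atTop (𝓝 0) := Iff.rfl

lemma mul_mem_Jr {m x : B} (hx : x ∈ Jr m) (y : B) : y * x ∈ Jr m := by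
  rw [mem_Jr] at *
  have := hx.const_mul y
  simpa only [mul_assoc, mul_zero] using this

lemma mul_mem_Jl {m x : B} (hx : x ∈ Jl m) (y : B) : x * y ∈ Jl m := by
  rw [mem_Jl] at *
  have := hx.mul_const y
  simpa only [mul_assoc, zero_mul] using this

lemma mul_comm_mem_Jr {m x : B} (hx : x ∈ Jr m) {y : B} (hy : Commute y m) : x * y ∈ Jr m := by
  rw [mem_Jr] at *
  have := hx.mul_const y
  rw [zero_mul] at this
  refine this.congr fun N => ?_
  rw [mul_assoc, mul_assoc, (commute_avg_of hy N).eq]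

lemma mul_comm_mem_Jl {m x : B} (hx : x ∈ Jl m) {y : B} (hy : Commute y m) : y * x ∈ Jl m := by
  rw [mem_Jl] at *
  have := hx.const_mul y
  rw [mul_zero] at this
  refine this.congr fun N => ?_
  rw [← mul_assoc, ← mul_assoc, (commute_avg_of hy N).eq]

lemma one_sub_mem_Jr {m : B} {C : ℝ} (hm : ∀ j : ℕ, ‖m ^ j‖ ≤ C) : 1 - m ∈ Jr m :=
  tendsto_one_sub_mul_avg hm

lemma one_sub_mem_Jl {m : B} {C : ℝ} (hm : ∀ j : ℕ, ‖m ^ j‖ ≤ C) : 1 - m ∈ Jl m := by
  rw [mem_Jl]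
  refine (tendsto_one_sub_mul_avg hm).congr fun N => ?_
  exact ((Commute.one_left _).sub_left (commute_avg m N)).eq

lemma one_sub_avg_mem_Jr {m : B} {C : ℝ} (hm : ∀ j : ℕ, ‖m ^ j‖ ≤ C) (N : ℕ) :
    1 - avg m N ∈ Jr m := by
  obtain ⟨q, h1, -⟩ := exists_one_sub_avg m N
  rw [h1]
  exact mul_mem_Jr (one_sub_mem_Jr hm) q

lemma one_sub_avg_mem_Jl {m : B} {C : ℝ} (hm : ∀ j : ℕ, ‖m ^ j‖ ≤ C) (N : ℕ) :
    1 - avg m N ∈ Jl m := by
  obtain ⟨q, -, h1⟩ := exists_one_sub_avg m N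
  rw [h1]
  exact mul_mem_Jl (one_sub_mem_Jl hm) q

lemma isClosed_Jr {m : B} {C : ℝ} (hm : ∀ j : ℕ, ‖m ^ j‖ ≤ C) : IsClosed (Jr m : Set B) := by
  refine isClosed_of_closure_subset fun x hx => ?_
  have hC : 0 ≤ C := (norm_nonneg _).trans (hm 0)
  show Tendsto (fun N => x * avg m N) atTop (𝓝 0)
  rw [Metric.tendsto_atTop]
  intro ε hε
  have hε' : 0 < ε / (2 * (C + 1)) := by positivity
  obtain ⟨y, hy, hxy⟩ := Metric.mem_closure_iff.1 hx _ hε'
  have hy' : Tendsto (fun N => y * avg m N) atTop (𝓝 0) := hy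
  rw [Metric.tendsto_atTop] at hy'
  obtain ⟨N0, hN0⟩ := hy' (ε / 2) (by positivity)
  refine ⟨N0, fun N hN => ?_⟩
  have h1 := hN0 N hN
  rw [dist_zero_right] at h1 ⊢
  have h2 : x * avg m N = (x - y) * avg m N + y * avg m N := by noncomm_ring
  rw [h2]
  have h3 : ‖(x - y) * avg m N‖ ≤ ε / (2 * (C + 1)) * C := by
    refine (norm_mul_le _ _).trans ?_
    rw [dist_eq_norm] at hxy
    exact mul_le_mul hxy.le (norm_avg_le hm N) (norm_nonneg _) hε'.le
  have h4 : ε / (2 * (C + 1)) * C ≤ ε / 2 := by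
    rw [div_mul_eq_mul_div, div_le_div_iff₀ (by positivity) (by positivity)]
    nlinarith
  calc ‖(x - y) * avg m N + y * avg m N‖ ≤ _ := norm_add_le _ _
    _ < ε := by linarith

lemma isClosed_Jl {m : B} {C : ℝ} (hm : ∀ j : ℕ, ‖m ^ j‖ ≤ C) : IsClosed (Jl m : Set B) := by
  refine isClosed_of_closure_subset fun x hx => ?_
  have hC : 0 ≤ C := (norm_nonneg _).trans (hm 0)
  show Tendsto (fun N => avg m N * x) atTop (𝓝 0)
  rw [Metric.tendsto_atTop]
  intro ε hε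
  have hε' : 0 < ε / (2 * (C + 1)) := by positivity
  obtain ⟨y, hy, hxy⟩ := Metric.mem_closure_iff.1 hx _ hε'
  have hy' : Tendsto (fun N => avg m N * y) atTop (𝓝 0) := hy
  rw [Metric.tendsto_atTop] at hy'
  obtain ⟨N0, hN0⟩ := hy' (ε / 2) (by positivity)
  refine ⟨N0, fun N hN => ?_⟩
  have h1 := hN0 N hN
  rw [dist_zero_right] at h1 ⊢
  have h2 : avg m N * x = avg m N * (x - y) + avg m N * y := by noncomm_ring
  rw [h2]
  have h3 : ‖avg m N * (x - y)‖ ≤ C * (ε / (2 * (C + 1))) := by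
    refine (norm_mul_le _ _).trans ?_
    rw [dist_eq_norm] at hxy
    exact mul_le_mul (norm_avg_le hm N) hxy.le (norm_nonneg _) hC
  have h4 : C * (ε / (2 * (C + 1))) ≤ ε / 2 := by
    rw [mul_div_assoc', div_le_div_iff₀ (by positivity) (by positivity)]
    nlinarith
  calc ‖avg m N * (x - y) + avg m N * y‖ ≤ _ := norm_add_le _ _
    _ < ε := by linarith

variable [CompleteSpace B]

/-- Invariants of the induction in the proof of the factorization theorem. -/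
structure Inv (m : B) (c K : ℝ) (j : ℕ) (z : Bˣ) : Prop where
  comm : Commute (z : B) m
  sub_mem : (z : B) - ((((1 - c) ^ j : ℝ)) : ℂ) • (1 : B) ∈ Jr m
  inv_le : ‖((z⁻¹ : Bˣ) : B)‖ ≤ ‖(1 : B)‖ * K ^ j

lemma exists_unit {m : B} {C c : ℝ} (hm : ∀ j : ℕ, ‖m ^ j‖ ≤ C) (hc : 0 ≤ c) (hcC : c * C ≤ 1 / 2)
    (N : ℕ) : ∃ u : Bˣ, (u : B) = 1 - (c : ℂ) • avg m N ∧ ‖((u⁻¹ : Bˣ) : B)‖ ≤ ‖(1 : B)‖ + 1 := by
  have h1 : ‖(c : ℂ) • avg m N‖ ≤ 1 / 2 := by
    rw [norm_smul, Complex.norm_real, Real.norm_of_nonneg hc]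
    exact (mul_le_mul_of_nonneg_left (norm_avg_le hm N) hc).trans hcC
  have h2 : ‖(c : ℂ) • avg m N‖ < 1 := by linarith
  refine ⟨Units.oneSub _ h2, Units.val_oneSub _ h2, ?_⟩
  have h3 : (((Units.oneSub _ h2)⁻¹ : Bˣ) : B) = ∑' n : ℕ, ((c : ℂ) • avg m N) ^ n := rfl
  rw [h3]
  refine (tsum_geometric_le_of_norm_lt_one _ h2).trans ?_
  have h4 : (1 - ‖(c : ℂ) • avg m N‖)⁻¹ ≤ 2 := by
    rw [inv_le_comm₀ (by linarith) (by norm_num)]
    linarith
  linarith

lemma step {m F : B} {C c : ℝ} (hm : ∀ j : ℕ, ‖m ^ j‖ ≤ C) (hc : 0 ≤ c) (hc1 : c ≤ 1)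
    (hcC : c * C ≤ 1 / 2)
    (hF : F ∈ Jr m) (j : ℕ) (z : Bˣ) (hz : Inv m c (‖(1 : B)‖ + 1) j z) :
    ∃ (z' : Bˣ), Inv m c (‖(1 : B)‖ + 1) (j + 1) z' ∧
      ‖(z' : B) - z‖ ≤ c * ((1 - c) ^ j * C + (1 / 2) ^ j) ∧
      ‖F * ((z'⁻¹ : Bˣ) : B) - F * ((z⁻¹ : Bˣ) : B)‖ ≤ (1 / 2) ^ j := by
  set K : ℝ := ‖(1 : B)‖ + 1 with hK
  have hK1 : 1 ≤ K := by rw [hK]; linarith [norm_nonneg (1 : B)]
  -- choice of `n`
  have e1 : Tendsto (fun n => ‖((z : B) - ((((1 - c) ^ j : ℝ)) : ℂ) • (1 : B)) * avg m n‖) atTop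
      (𝓝 0) := tendsto_zero_iff_norm_tendsto_zero.1 hz.sub_mem
  have e2 : Tendsto (fun n => ‖F * avg m n‖) atTop (𝓝 0) := tendsto_zero_iff_norm_tendsto_zero.1 hF
  have hpos : 0 < (1 / 2 : ℝ) ^ j / (c * (‖(1 : B)‖ * K ^ (j + 1)) + 1) := by positivity
  obtain ⟨n, hn1, hn2⟩ := ((e1.eventually (gt_mem_nhds (show (0 : ℝ) < (1 / 2) ^ j by positivity))).and
    (e2.eventually (gt_mem_nhds hpos))).exists
  obtain ⟨u, hu, hu'⟩ := exists_unit hm hc hcC n
  have hua : Commute (u : B) m := by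
    rw [hu]
    exact (Commute.one_left _).sub_left (((commute_avg m n).symm).smul_left _)
  have hzu : Commute (z : B) (u : B) := by
    rw [hu]
    exact (Commute.one_right _).sub_right ((commute_avg_of hz.comm n).smul_right _)
  refine ⟨z * u, ⟨?_, ?_, ?_⟩, ?_, ?_⟩
  · rw [Units.val_mul]
    exact hz.comm.mul_left hua
  · have h1 : ((z * u : Bˣ) : B) - ((((1 - c) ^ (j + 1) : ℝ)) : ℂ) • (1 : B) =
        ((z : B) - ((((1 - c) ^ j : ℝ)) : ℂ) • (1 : B)) * (u : B) +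
          ((((1 - c) ^ j : ℝ)) : ℂ) • ((c : ℂ) • (1 - avg m n)) := by
      rw [Units.val_mul, hu, sub_mul, smul_sub, smul_sub, smul_mul_assoc, one_mul, smul_sub]
      rw [pow_succ]
      push_cast
      simp only [mul_sub, mul_one, sub_smul, mul_smul]
      abel
    rw [h1]
    refine (Jr m).add_mem (mul_comm_mem_Jr hz.sub_mem hua) ?_
    exact (Jr m).smul_mem _ ((Jr m).smul_mem _ (one_sub_avg_mem_Jr hm n))
  · rw [mul_inv_rev, Units.val_mul]
    refine (norm_mul_le _ _).trans ?_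
    calc ‖((u⁻¹ : Bˣ) : B)‖ * ‖((z⁻¹ : Bˣ) : B)‖ ≤ K * (‖(1 : B)‖ * K ^ j) :=
          mul_le_mul hu' hz.inv_le (norm_nonneg _) (by linarith)
      _ = ‖(1 : B)‖ * K ^ (j + 1) := by ring
  · have h1 : ((z * u : Bˣ) : B) - z = -((c : ℂ) • ((z : B) * avg m n)) := by
      rw [Units.val_mul, hu, mul_sub, mul_one, mul_smul_comm]
      abel
    rw [h1, norm_neg, norm_smul, Complex.norm_real, Real.norm_of_nonneg hc]
    refine mul_le_mul_of_nonneg_left ?_ hc
    have h2 : (z : B) * avg m n = ((((1 - c) ^ j : ℝ)) : ℂ) • avg m n +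
        ((z : B) - ((((1 - c) ^ j : ℝ)) : ℂ) • (1 : B)) * avg m n := by
      rw [sub_mul, smul_mul_assoc, one_mul]
      abel
    rw [h2]
    refine (norm_add_le _ _).trans (add_le_add ?_ hn1.le)
    have h3 : 0 ≤ (1 - c) ^ j := pow_nonneg (by linarith) _
    rw [norm_smul, Complex.norm_real, Real.norm_of_nonneg h3]
    exact mul_le_mul_of_nonneg_left (norm_avg_le hm n) h3
  · have hzu' : Commute ((z⁻¹ : Bˣ) : B) ((u⁻¹ : Bˣ) : B) := by
      have : Commute z u := by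
        apply Units.ext
        exact hzu
      exact congrArg Units.val (this.inv_inv).eq
    -- `z'⁻¹ - z⁻¹ = z'⁻¹ (1 - u)`
    have h0 : (((z * u)⁻¹ : Bˣ) : B) * (u : B) = ((z⁻¹ : Bˣ) : B) := by
      rw [mul_inv_rev, Units.val_mul, ← hzu'.eq, mul_assoc, Units.inv_mul, mul_one]
    have hA : Commute (((z * u)⁻¹ : Bˣ) : B) (avg m n) := by
      have h5 : Commute ((z * u : Bˣ) : B) (avg m n) := by
        rw [Units.val_mul]
        exact (commute_avg_of hz.comm n).mul_left (commute_avg_of hua n)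
      exact h5.units_inv_left
    have h1 : (((z * u)⁻¹ : Bˣ) : B) - ((z⁻¹ : Bˣ) : B) =
        (c : ℂ) • (avg m n * (((z * u)⁻¹ : Bˣ) : B)) := by
      rw [← h0, hu, mul_sub, mul_one, ← hA.eq, mul_smul_comm]
      abel
    rw [← mul_sub, h1, mul_smul_comm, norm_smul, Complex.norm_real, Real.norm_of_nonneg hc,
      ← mul_assoc]
    have h2 : ‖(((z * u)⁻¹ : Bˣ) : B)‖ ≤ ‖(1 : B)‖ * K ^ (j + 1) := by
      rw [mul_inv_rev, Units.val_mul]
      refine (norm_mul_le _ _).trans ?_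
      calc ‖((u⁻¹ : Bˣ) : B)‖ * ‖((z⁻¹ : Bˣ) : B)‖ ≤ K * (‖(1 : B)‖ * K ^ j) :=
            mul_le_mul hu' hz.inv_le (norm_nonneg _) (by linarith)
        _ = ‖(1 : B)‖ * K ^ (j + 1) := by ring
    have hn2' := hn2.le
    rw [le_div_iff₀ (by positivity)] at hn2'
    calc c * ‖F * avg m n * (((z * u)⁻¹ : Bˣ) : B)‖
        ≤ c * (‖F * avg m n‖ * (‖(1 : B)‖ * K ^ (j + 1))) := by
          refine mul_le_mul_of_nonneg_left ?_ hc
          exact (norm_mul_le _ _).trans (mul_le_mul_of_nonneg_left h2 (norm_nonneg _))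
      _ ≤ ‖F * avg m n‖ * (c * (‖(1 : B)‖ * K ^ (j + 1)) + 1) := by
          have := norm_nonneg (F * avg m n)
          nlinarith
      _ ≤ (1 / 2) ^ j := hn2'

/-- Factorization of the elements of `Jr m`. -/
theorem factor_Jr {m F : B} {C : ℝ} (hm : ∀ j : ℕ, ‖m ^ j‖ ≤ C) (hF : F ∈ Jr m) :
    ∃ H z : B, F = H * z ∧ H ∈ Jr m ∧ z ∈ Jr m ∧ Commute z m := by
  have hC : 0 ≤ C := (norm_nonneg _).trans (hm 0)
  set c : ℝ := 1 / (2 * (C + 1)) with hcdef
  have hc : 0 < c := by positivity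
  have hc1 : c ≤ 1 / 2 := by
    rw [hcdef, div_le_div_iff₀ (by positivity) (by positivity)]
    nlinarith
  have hcC : c * C ≤ 1 / 2 := by
    rw [hcdef, div_mul_eq_mul_div, div_le_div_iff₀ (by positivity) (by positivity)]
    nlinarith
  choose f hf1 hf2 hf3 using
    fun (j : ℕ) (z : Bˣ) (hz : Inv m c (‖(1 : B)‖ + 1) j z) =>
      step (F := F) hm hc.le (by linarith) hcC hF j z hz
  have h0 : Inv m c (‖(1 : B)‖ + 1) 0 (1 : Bˣ) := by
    refine ⟨by simp, by simp, by simp⟩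
  let Z : (j : ℕ) → {z : Bˣ // Inv m c (‖(1 : B)‖ + 1) j z} :=
    fun j => Nat.rec ⟨1, h0⟩ (fun j p => ⟨f j p.1 p.2, hf1 j p.1 p.2⟩) j
  have hZ : ∀ j, ((Z (j + 1)).1 : Bˣ) = f j (Z j).1 (Z j).2 := fun j => rfl
  -- convergence
  have hs1 : Summable (fun j : ℕ => c * ((1 - c) ^ j * C + (1 / 2) ^ j)) := by
    refine Summable.mul_left _ (Summable.add (Summable.mul_right _ ?_) ?_)
    · exact summable_geometric_of_lt_one (by linarith) (by linarith)
    · exact summable_geometric_of_lt_one (by norm_num) (by norm_num)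
  have hs2 : Summable (fun j : ℕ => (1 / 2 : ℝ) ^ j) :=
    summable_geometric_of_lt_one (by norm_num) (by norm_num)
  have hc1' : CauchySeq (fun j => (((Z j).1 : Bˣ) : B)) := by
    refine cauchySeq_of_dist_le_of_summable _ (fun j => ?_) hs1
    rw [dist_comm, dist_eq_norm, hZ]
    exact hf2 j (Z j).1 (Z j).2
  have hc2' : CauchySeq (fun j => F * ((((Z j).1)⁻¹ : Bˣ) : B)) := by
    refine cauchySeq_of_dist_le_of_summable _ (fun j => ?_) hs2
    rw [dist_comm, dist_eq_norm, hZ]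
    exact hf3 j (Z j).1 (Z j).2
  obtain ⟨z, hz⟩ := cauchySeq_tendsto_of_complete hc1'
  obtain ⟨H, hH⟩ := cauchySeq_tendsto_of_complete hc2'
  refine ⟨H, z, ?_, ?_, ?_, ?_⟩
  · have h1 : Tendsto (fun j => F * ((((Z j).1)⁻¹ : Bˣ) : B) * (((Z j).1 : Bˣ) : B)) atTop
        (𝓝 (H * z)) := hH.mul hz
    have h2 : (fun j => F * ((((Z j).1)⁻¹ : Bˣ) : B) * (((Z j).1 : Bˣ) : B)) = fun _ => F := by
      funext j
      rw [mul_assoc, Units.inv_mul, mul_one]
    rw [h2] at h1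
    exact tendsto_nhds_unique tendsto_const_nhds h1
  · refine (isClosed_Jr hm).mem_of_tendsto hH (Eventually.of_forall fun j => ?_)
    refine mul_comm_mem_Jr hF ?_
    exact (Z j).2.comm.units_inv_left
  · have h1 : Tendsto (fun j => (((Z j).1 : Bˣ) : B) - ((((1 - c) ^ j : ℝ)) : ℂ) • (1 : B)) atTop
        (𝓝 (z - (0 : ℂ) • (1 : B))) := by
      refine hz.sub (Tendsto.smul_const ?_ _)
      have : Tendsto (fun j : ℕ => (1 - c) ^ j) atTop (𝓝 0) :=
        tendsto_pow_atTop_nhds_zero_of_lt_one (by linarith) (by linarith)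
      have h3 := (Complex.continuous_ofReal.tendsto 0).comp this
      rw [Complex.ofReal_zero] at h3
      exact h3
    rw [zero_smul, sub_zero] at h1
    exact (isClosed_Jr hm).mem_of_tendsto h1 (Eventually.of_forall fun j => (Z j).2.sub_mem)
  · have h1 : Tendsto (fun j => (((Z j).1 : Bˣ) : B) * m) atTop (𝓝 (z * m)) := hz.mul_const m
    have h2 : Tendsto (fun j => m * (((Z j).1 : Bˣ) : B)) atTop (𝓝 (m * z)) := hz.const_mul m
    have h3 : (fun j => (((Z j).1 : Bˣ) : B) * m) = fun j => m * (((Z j).1 : Bˣ) : B) :=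
      funext fun j => (Z j).2.comm.eq
    rw [h3] at h1
    exact tendsto_nhds_unique h1 h2

end Pool.Agent.L7h53.I2
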