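import Mathlib

/-!
# A Liouville theorem

`G` is a group with a uniformly bounded representation `ρ` on an inner product space `V`, and `μ` is
the uniform distribution on a finite family `s` of elements of `G`. A bounded function `Ψ : G → V`
which is right `μ`-harmonic and such that `g ↦ ρ(k)⁻¹ Ψ(k g)` averages to `Ψ(g)` is constant on the
monoid generated by `s`.
-/

set_option autoImplicit false

namespace Pool.Agent.L7h53.I2

open Filter Topology

section Expect

variable {G κ W W' : Type*} [Group G] [Fintype κ] [AddCommGroup W] [Module ℝ W]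
  [AddCommGroup W'] [Module ℝ W']

/-- The average of a finite family. -/
noncomputable def av (v : κ → W) : W := (Fintype.card κ : ℝ)⁻¹ • ∑ k, v k

lemma av_add (v w : κ → W) : av (fun k => v k + w k) = av v + av w := by
  unfold av
  rw [Finset.sum_add_distrib, smul_add]

lemma av_smul (c : ℝ) (v : κ → W) : av (fun k => c • v k) = c • av v := by
  unfold av
  rw [← Finset.smul_sum, smul_comm]

lemma av_const [Nonempty κ] (c : W) : av (fun _ : κ => c) = c := by
  unfold av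
  rw [Finset.sum_const, Finset.card_univ, ← Nat.cast_smul_eq_nsmul ℝ, smul_smul,
    inv_mul_cancel₀ (by exact_mod_cast Fintype.card_ne_zero), one_smul]

lemma av_map (L : W →ₗ[ℝ] W') (v : κ → W) : av (fun k => L (v k)) = L (av v) := by
  unfold av
  rw [map_smul, map_sum]

lemma av_mono {v w : κ → ℝ} (h : ∀ k, v k ≤ w k) : av v ≤ av w := by
  unfold av
  rw [smul_eq_mul, smul_eq_mul]
  exact mul_le_mul_of_nonneg_left (Finset.sum_le_sum fun k _ => h k) (by positivity)

lemma av_nonneg {v : κ → ℝ} (h : ∀ k, 0 ≤ v k) : 0 ≤ av v := by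
  unfold av
  rw [smul_eq_mul]
  exact mul_nonneg (by positivity) (Finset.sum_nonneg fun k _ => h k)

lemma av_eq_zero [Nonempty κ] {v : κ → ℝ} (h : ∀ k, 0 ≤ v k) (h0 : av v = 0) (k : κ) :
    v k = 0 := by
  unfold av at h0
  rw [smul_eq_mul] at h0
  rcases mul_eq_zero.1 h0 with h1 | h1
  · exact absurd h1 (inv_ne_zero (by exact_mod_cast Fintype.card_ne_zero))
  · exact (Finset.sum_eq_zero_iff_of_nonneg fun k _ => h k).1 h1 k (Finset.mem_univ k)

/-- The expectation of `f` at the `n`-th position of the random walk. -/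
noncomputable def ex (s : κ → G) : ℕ → (G → W) → W
  | 0, f => f 1
  | n + 1, f => av fun k => ex s n fun g => f (g * s k)

variable (s : κ → G)

lemma ex_zero (f : G → W) : ex s 0 f = f 1 := rfl

lemma ex_succ (n : ℕ) (f : G → W) : ex s (n + 1) f = av fun k => ex s n fun g => f (g * s k) := rfl

lemma ex_add (n : ℕ) (f g : G → W) : ex s n (fun x => f x + g x) = ex s n f + ex s n g := by
  induction n generalizing f g with
  | zero => rfl
  | succ n ih =>
    rw [ex_succ, ex_succ, ex_succ, ← av_add]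
    congr 1
    funext k
    exact ih _ _

lemma ex_smul (n : ℕ) (c : ℝ) (f : G → W) : ex s n (fun x => c • f x) = c • ex s n f := by
  induction n generalizing f with
  | zero => rfl
  | succ n ih =>
    rw [ex_succ, ex_succ, ← av_smul]
    congr 1
    funext k
    exact ih _

lemma ex_mul_left (n : ℕ) (c : ℝ) (f : G → ℝ) :
    ex s n (fun x => c * f x) = c * ex s n f := by
  have := ex_smul s n c f
  simpa only [smul_eq_mul] using this

lemma ex_map (n : ℕ) (L : W →ₗ[ℝ] W') (f : G → W) : ex s n (fun x => L (f x)) = L (ex s n f) := by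
  induction n generalizing f with
  | zero => rfl
  | succ n ih =>
    rw [ex_succ, ex_succ, ← av_map]
    congr 1
    funext k
    exact ih _

lemma ex_const [Nonempty κ] (n : ℕ) (c : W) : ex s n (fun _ : G => c) = c := by
  induction n with
  | zero => rfl
  | succ n ih =>
    rw [ex_succ]
    simp only [ih]
    exact av_const c

lemma ex_sub (n : ℕ) (f g : G → W) : ex s n (fun x => f x - g x) = ex s n f - ex s n g := by
  have h := ex_add s n f (fun x => (-1 : ℝ) • g x)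
  rw [ex_smul] at h
  simp only [neg_smul, one_smul, ← sub_eq_add_neg] at h
  exact h

lemma ex_mono (n : ℕ) {f g : G → ℝ} (h : ∀ x, f x ≤ g x) : ex s n f ≤ ex s n g := by
  induction n generalizing f g with
  | zero => exact h 1
  | succ n ih =>
    rw [ex_succ, ex_succ]
    exact av_mono fun k => ih fun x => h _

lemma ex_nonneg (n : ℕ) {f : G → ℝ} (h : ∀ x, 0 ≤ f x) : 0 ≤ ex s n f := by
  induction n generalizing f with
  | zero => exact h 1
  | succ n ih =>
    rw [ex_succ]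
    exact av_nonneg fun k => ih fun x => h _

lemma ex_av {ι : Type*} [Fintype ι] (n : ℕ) (F : ι → G → W) :
    ex s n (fun g => av fun i => F i g) = av fun i => ex s n (F i) := by
  induction n generalizing F with
  | zero => rfl
  | succ n ih =>
    rw [ex_succ]
    have h1 : (fun k => ex s n fun g => av fun i => F i (g * s k)) =
        fun k => av fun i => ex s n fun g => F i (g * s k) := funext fun k => ih _
    rw [h1]
    simp only [ex_succ]
    unfold av
    simp only [Finset.smul_sum]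
    rw [Finset.sum_comm]
    simp only [smul_comm (Fintype.card κ : ℝ)⁻¹ (Fintype.card ι : ℝ)⁻¹]

lemma ex_comp (n m : ℕ) (f : G → W) :
    ex s n (fun g => ex s m fun h => f (g * h)) = ex s (n + m) f := by
  induction m generalizing f with
  | zero => simp only [ex_zero, mul_one, add_zero]
  | succ m ih =>
    simp only [ex_succ, ← mul_assoc]
    rw [ex_av]
    rw [← add_assoc, ex_succ]
    congr 1
    funext k
    rw [← ih]

lemma ex_swap (n m : ℕ) (F : G → G → W) :
    ex s n (fun g => ex s m fun h => F g h) = ex s m (fun h => ex s n fun g => F g h) := by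
  induction m generalizing F with
  | zero => rfl
  | succ m ih =>
    simp only [ex_succ]
    rw [ex_av]
    congr 1
    funext k
    exact ih _

/-- Elements reached by the random walk. -/
lemma reach [Nonempty κ] {f : G → ℝ} (h0 : ∀ g, 0 ≤ f g) (h : ∀ n, ex s n f = 0) {g : G}
    (hg : g ∈ Submonoid.closure (Set.range s)) : f g = 0 := by
  induction hg using Submonoid.closure_induction_right generalizing f with
  | one => exact h 0
  | mul_right x hx y hy ih =>
    obtain ⟨k, rfl⟩ := hy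
    refine ih (f := fun g => f (g * s k)) (fun g => h0 _) fun n => ?_
    have h1 := h (n + 1)
    rw [ex_succ] at h1
    exact av_eq_zero (v := fun k => ex s n fun g => f (g * s k))
      (fun k => ex_nonneg s n fun g => h0 _) h1 k

end Expect

section Main

variable {G κ V : Type*} [Group G] [Fintype κ] [Nonempty κ] [NormedAddCommGroup V]
  [InnerProductSpace ℝ V] (ρ : G →* (V →ₗ[ℝ] V))

/-- The square of the invariant norm. -/
noncomputable def nq (v : V) : ℝ := ⨆ g : G, ‖ρ g v‖ ^ 2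

variable {ρ} {C : ℝ} (hρ : ∀ g v, ‖ρ g v‖ ≤ C * ‖v‖)

include hρ

lemma bdd_nq (v : V) : BddAbove (Set.range fun g : G => ‖ρ g v‖ ^ 2) := by
  refine ⟨(C * ‖v‖) ^ 2, ?_⟩
  rintro _ ⟨g, rfl⟩
  exact pow_le_pow_left₀ (norm_nonneg _) (hρ g v) 2

lemma le_nq (g : G) (v : V) : ‖ρ g v‖ ^ 2 ≤ nq ρ v := le_ciSup (bdd_nq hρ v) g

omit hρ in
lemma nq_nonneg (v : V) : 0 ≤ nq ρ v := Real.iSup_nonneg fun g => by positivity

lemma nq_le_of (v : V) (g : G) : nq ρ v ≤ C ^ 2 * ‖ρ g v‖ ^ 2 := by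
  refine ciSup_le fun h => ?_
  have h1 : ρ h v = ρ (h * g⁻¹) (ρ g v) := by
    rw [← Module.End.mul_apply, ← map_mul, inv_mul_cancel_right]
  rw [h1, ← mul_pow]
  exact pow_le_pow_left₀ (norm_nonneg _) (hρ _ _) 2

omit hρ in
lemma nq_rho (h : G) (v : V) : nq ρ (ρ h v) = nq ρ v := by
  unfold nq
  have : ∀ g : G, ‖ρ g (ρ h v)‖ ^ 2 = ‖ρ (g * h) v‖ ^ 2 := fun g => by
    rw [map_mul, Module.End.mul_apply]
  simp only [this]
  exact (Equiv.mulRight h).iSup_comp (g := fun g => ‖ρ g v‖ ^ 2)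

lemma nq_eq_zero {v : V} (h : nq ρ v = 0) : v = 0 := by
  have h1 := le_nq hρ 1 v
  rw [h, map_one, Module.End.one_apply] at h1
  have h2 : ‖v‖ = 0 := by
    have := sq_nonneg ‖v‖
    exact pow_eq_zero_iff (two_ne_zero) |>.1 (le_antisymm h1 this)
  exact norm_eq_zero.1 h2

omit hρ in
lemma nq_bound (hρ : ∀ g v, ‖ρ g v‖ ≤ C * ‖v‖) (v : V) : nq ρ v ≤ C ^ 2 * ‖v‖ ^ 2 := by
  have := nq_le_of hρ v 1
  rwa [map_one, Module.End.one_apply] at this

/-- `|v + w|² ≤ (1 + t) |v|² + (1 + 1/t) |w|²`. -/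
lemma nq_add_le {t : ℝ} (ht : 0 < t) (v w : V) :
    nq ρ (v + w) ≤ (1 + t) * nq ρ v + (1 + 1 / t) * nq ρ w := by
  refine ciSup_le fun g => ?_
  have h1 := le_nq hρ g v
  have h2 := le_nq hρ g w
  have h3 : ‖ρ g (v + w)‖ ≤ ‖ρ g v‖ + ‖ρ g w‖ := by
    rw [map_add]
    exact norm_add_le _ _
  have h4 : ‖ρ g (v + w)‖ ^ 2 ≤ (‖ρ g v‖ + ‖ρ g w‖) ^ 2 := pow_le_pow_left₀ (norm_nonneg _) h3 2
  refine h4.trans ?_
  have h5 : (‖ρ g v‖ + ‖ρ g w‖) ^ 2 ≤ (1 + t) * ‖ρ g v‖ ^ 2 + (1 + 1 / t) * ‖ρ g w‖ ^ 2 := by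
    have h6 : 0 ≤ (t * ‖ρ g v‖ - ‖ρ g w‖) ^ 2 / t := by positivity
    have h7 : (t * ‖ρ g v‖ - ‖ρ g w‖) ^ 2 / t =
        t * ‖ρ g v‖ ^ 2 - 2 * ‖ρ g v‖ * ‖ρ g w‖ + 1 / t * ‖ρ g w‖ ^ 2 := by
      field_simp
      ring
    rw [h7] at h6
    nlinarith
  refine h5.trans ?_
  have h8 : 0 < 1 + 1 / t := by positivity
  gcongr

variable (s : κ → G)

/-- The variance inequality. -/
lemma variance (n : ℕ) (X : G → V) :
    ex s n (fun g => nq ρ (X g - ex s n X)) ≤
      C ^ 2 * (ex s n (fun g => nq ρ (X g)) - nq ρ (ex s n X)) := by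
  set a := ex s n X with ha
  have key : ∀ g : G, ex s n (fun x => ‖ρ g (X x - a)‖ ^ 2) =
      ex s n (fun x => ‖ρ g (X x)‖ ^ 2) - ‖ρ g a‖ ^ 2 := by
    intro g
    have h1 : ∀ x, ‖ρ g (X x - a)‖ ^ 2 =
        (‖ρ g (X x)‖ ^ 2 + ‖ρ g a‖ ^ 2) - 2 * inner ℝ (ρ g a) (ρ g (X x)) := by
      intro x
      rw [map_sub, norm_sub_sq_real, real_inner_comm]
      ring
    simp only [h1]
    rw [ex_sub, ex_add, ex_const]
    have h2 : ex s n (fun x => 2 * inner ℝ (ρ g a) (ρ g (X x))) =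
        2 * inner ℝ (ρ g a) (ρ g a) := by
      have h3 := ex_map s n (((2 : ℝ) • (innerₗ V (ρ g a))).comp (ρ g)) X
      simp only [LinearMap.comp_apply, LinearMap.smul_apply, innerₗ_apply_apply, smul_eq_mul] at h3
      rw [h3]
    rw [h2, real_inner_self_eq_norm_sq]
    ring
  refine le_of_forall_pos_le_add fun ε hε => ?_
  have hC2 : 0 ≤ C ^ 2 := sq_nonneg C
  obtain ⟨g, hg⟩ : ∃ g : G, nq ρ a - ε / (C ^ 2 + 1) < ‖ρ g a‖ ^ 2 := by
    have h1 : nq ρ a - ε / (C ^ 2 + 1) < nq ρ a := by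
      have : 0 < ε / (C ^ 2 + 1) := by positivity
      linarith
    exact exists_lt_of_lt_ciSup h1
  calc ex s n (fun x => nq ρ (X x - a))
      ≤ ex s n (fun x => C ^ 2 * ‖ρ g (X x - a)‖ ^ 2) := ex_mono s n fun x => nq_le_of hρ _ g
    _ = C ^ 2 * ex s n (fun x => ‖ρ g (X x - a)‖ ^ 2) := by
        have := ex_smul s n (C ^ 2) (fun x => ‖ρ g (X x - a)‖ ^ 2)
        simpa only [smul_eq_mul] using this
    _ = C ^ 2 * (ex s n (fun x => ‖ρ g (X x)‖ ^ 2) - ‖ρ g a‖ ^ 2) := by rw [key]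
    _ ≤ C ^ 2 * (ex s n (fun x => nq ρ (X x)) - (nq ρ a - ε / (C ^ 2 + 1))) := by
        refine mul_le_mul_of_nonneg_left ?_ hC2
        have := ex_mono s n (f := fun x => ‖ρ g (X x)‖ ^ 2) (g := fun x => nq ρ (X x))
          fun x => le_nq hρ g _
        linarith
    _ ≤ C ^ 2 * (ex s n (fun x => nq ρ (X x)) - nq ρ a) + ε := by
        have h1 : C ^ 2 * (ε / (C ^ 2 + 1)) ≤ ε := by
          rw [mul_div_assoc', div_le_iff₀ (by positivity)]
          nlinarith
        linarith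

lemma jensen (hC : 0 < C) (n : ℕ) (X : G → V) :
    nq ρ (ex s n X) ≤ ex s n (fun g => nq ρ (X g)) := by
  have h1 := variance hρ s n X
  have h2 : 0 ≤ ex s n (fun g => nq ρ (X g - ex s n X)) := ex_nonneg s n fun g => nq_nonneg _
  have h3 : 0 < C ^ 2 := by positivity
  have h4 := nonneg_of_mul_nonneg_right (h2.trans h1) h3
  linarith

omit hρ [Nonempty κ] in
lemma right_iter {Ψ : G → V} (hr : ∀ g, av (fun k => Ψ (g * s k)) = Ψ g) (n : ℕ) (g : G) :
    ex s n (fun h => Ψ (g * h)) = Ψ g := by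
  induction n with
  | zero => rw [ex_zero, mul_one]
  | succ n ih =>
    rw [ex_succ, ← ex_av]
    simp only [← mul_assoc, hr]
    exact ih

omit hρ [Nonempty κ] in
lemma left_iter {Ψ : G → V} (hl : ∀ g, av (fun k => ρ (s k)⁻¹ (Ψ (s k * g))) = Ψ g) (n : ℕ)
    (g : G) : ex s n (fun h => ρ h⁻¹ (Ψ (h * g))) = Ψ g := by
  induction n generalizing g with
  | zero => rw [ex_zero, one_mul, inv_one, map_one, Module.End.one_apply]
  | succ n ih =>
    rw [ex_succ]
    have h1 : (fun k => ex s n fun h => ρ (h * s k)⁻¹ (Ψ (h * s k * g))) =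
        fun k => ρ (s k)⁻¹ (Ψ (s k * g)) := by
      funext k
      rw [← ih (s k * g), ← ex_map]
      congr 1
      funext h
      rw [mul_inv_rev, map_mul, Module.End.mul_apply, mul_assoc]
    rw [h1, hl]

/-- **Liouville theorem.** -/
theorem liouville (hC : 0 < C) {Ψ : G → V} {K : ℝ} (hb : ∀ g, ‖Ψ g‖ ≤ K)
    (hr : ∀ g, av (fun k => Ψ (g * s k)) = Ψ g)
    (hl : ∀ g, av (fun k => ρ (s k)⁻¹ (Ψ (s k * g))) = Ψ g) :
    ∀ g ∈ Submonoid.closure (Set.range s), Ψ g = Ψ 1 := by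
  set u : ℕ → ℝ := fun n => ex s n (fun g => nq ρ (Ψ g)) with hu
  have hC2 : 0 < C ^ 2 := by positivity
  -- (V1)
  have V1 : ∀ n m, ex s n (fun g => ex s m fun h => nq ρ (Ψ (g * h) - Ψ g)) ≤
      C ^ 2 * (u (n + m) - u n) := by
    intro n m
    have h1 : ∀ g, ex s m (fun h => nq ρ (Ψ (g * h) - Ψ g)) ≤
        C ^ 2 * (ex s m (fun h => nq ρ (Ψ (g * h))) - nq ρ (Ψ g)) := by
      intro g
      have := variance hρ s m (fun h => Ψ (g * h))
      rwa [right_iter s hr] at this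
    refine (ex_mono s n h1).trans (le_of_eq ?_)
    have h2 := ex_smul s n (C ^ 2) (fun g => ex s m (fun h => nq ρ (Ψ (g * h))) - nq ρ (Ψ g))
    simp only [smul_eq_mul] at h2
    rw [h2, ex_sub, ex_comp s n m (fun g => nq ρ (Ψ g))]
  -- (V2)
  have V2 : ∀ n m, ex s n (fun g => ex s m fun h => nq ρ (Ψ (g * h) - ρ g (Ψ h))) ≤
      C ^ 2 * (u (n + m) - u m) := by
    intro n m
    rw [ex_swap]
    have h1 : ∀ h, ex s n (fun g => nq ρ (Ψ (g * h) - ρ g (Ψ h))) ≤
        C ^ 2 * (ex s n (fun g => nq ρ (Ψ (g * h))) - nq ρ (Ψ h)) := by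
      intro h
      have h3 := variance hρ s n (fun g => ρ g⁻¹ (Ψ (g * h)))
      rw [left_iter s hl] at h3
      have h4 : ∀ g, nq ρ (ρ g⁻¹ (Ψ (g * h)) - Ψ h) = nq ρ (Ψ (g * h) - ρ g (Ψ h)) := by
        intro g
        rw [← nq_rho g (ρ g⁻¹ (Ψ (g * h)) - Ψ h), map_sub, ← Module.End.mul_apply, ← map_mul,
          mul_inv_cancel, map_one, Module.End.one_apply]
      have h5 : ∀ g, nq ρ (ρ g⁻¹ (Ψ (g * h))) = nq ρ (Ψ (g * h)) := fun g => nq_rho _ _
      simpa only [h4, h5] using h3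
    refine (ex_mono s m h1).trans (le_of_eq ?_)
    have h2 := ex_smul s m (C ^ 2) (fun h => ex s n (fun g => nq ρ (Ψ (g * h))) - nq ρ (Ψ h))
    simp only [smul_eq_mul] at h2
    rw [h2, ex_sub, ex_swap s m n (fun h g => nq ρ (Ψ (g * h))),
      ex_comp s n m (fun g => nq ρ (Ψ g))]
  -- monotone and bounded
  have hmono : Monotone u := by
    refine monotone_nat_of_le_succ fun n => ?_
    have h1 := V1 n 1
    have h2 : 0 ≤ ex s n (fun g => ex s 1 fun h => nq ρ (Ψ (g * h) - Ψ g)) :=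
      ex_nonneg s n fun g => ex_nonneg s 1 fun h => nq_nonneg _
    have h3 := nonneg_of_mul_nonneg_right (h2.trans h1) hC2
    linarith
  have hbdd : ∀ n, u n ≤ C ^ 2 * K ^ 2 := by
    intro n
    have h1 : ∀ g, nq ρ (Ψ g) ≤ C ^ 2 * K ^ 2 := fun g =>
      (nq_bound hρ _).trans (mul_le_mul_of_nonneg_left
        (pow_le_pow_left₀ (norm_nonneg _) (hb g) 2) hC2.le)
    calc u n ≤ ex s n (fun _ : G => C ^ 2 * K ^ 2) := ex_mono s n h1
      _ = C ^ 2 * K ^ 2 := ex_const s n _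
  have hBA : BddAbove (Set.range u) := ⟨_, by rintro _ ⟨n, rfl⟩; exact hbdd n⟩
  set U := ⨆ n, u n with hU
  have hlim : Tendsto u atTop (𝓝 U) := tendsto_atTop_ciSup hmono hBA
  have hle : ∀ n, u n ≤ U := fun n => le_ciSup hBA n
  have hu0 : u 0 = nq ρ (Ψ 1) := rfl
  -- (V4)
  have V4 : ∀ n, ex s n (fun g => nq ρ (Ψ g - ρ g (Ψ 1))) ≤ 4 * (C ^ 2 * (U - u n)) := by
    intro n
    have h1 : ∀ g, nq ρ (Ψ g - ρ g (Ψ 1)) ≤ ex s n (fun h => nq ρ (Ψ g - ρ g (Ψ h))) := by
      intro g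
      have h2 := jensen hρ s hC n (fun h => Ψ g - ρ g (Ψ h))
      rw [ex_sub, ex_const, ex_map] at h2
      have h3 := right_iter s hr n 1
      simp only [one_mul] at h3
      rwa [h3] at h2
    have h4 : ∀ g h, nq ρ (Ψ g - ρ g (Ψ h)) ≤
        2 * nq ρ (Ψ (g * h) - Ψ g) + 2 * nq ρ (Ψ (g * h) - ρ g (Ψ h)) := by
      intro g h
      have h5 := nq_add_le hρ (t := 1) one_pos (Ψ g - Ψ (g * h)) (Ψ (g * h) - ρ g (Ψ h))
      have h6 : nq ρ (Ψ g - Ψ (g * h)) = nq ρ (Ψ (g * h) - Ψ g) := by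
        unfold nq
        congr 1
        funext x
        rw [map_sub, map_sub, norm_sub_rev]
      rw [h6, sub_add_sub_cancel] at h5
      linarith
    calc ex s n (fun g => nq ρ (Ψ g - ρ g (Ψ 1)))
        ≤ ex s n (fun g => ex s n (fun h => nq ρ (Ψ g - ρ g (Ψ h)))) := ex_mono s n h1
      _ ≤ ex s n (fun g => ex s n (fun h => (2 : ℝ) • nq ρ (Ψ (g * h) - Ψ g) +
            (2 : ℝ) • nq ρ (Ψ (g * h) - ρ g (Ψ h)))) := by
          refine ex_mono s n fun g => ex_mono s n fun h => ?_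
          simpa only [smul_eq_mul] using h4 g h
      _ = 2 * ex s n (fun g => ex s n fun h => nq ρ (Ψ (g * h) - Ψ g)) +
            2 * ex s n (fun g => ex s n fun h => nq ρ (Ψ (g * h) - ρ g (Ψ h))) := by
          simp only [ex_add, ex_mul_left, smul_eq_mul]
      _ ≤ 2 * (C ^ 2 * (u (n + n) - u n)) + 2 * (C ^ 2 * (u (n + n) - u n)) :=
          add_le_add (mul_le_mul_of_nonneg_left (V1 n n) (by norm_num))
            (mul_le_mul_of_nonneg_left (V2 n n) (by norm_num))
      _ ≤ 4 * (C ^ 2 * (U - u n)) := by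
          have h9 : C ^ 2 * (u (n + n) - u n) ≤ C ^ 2 * (U - u n) :=
            mul_le_mul_of_nonneg_left (by linarith [hle (n + n)]) hC2.le
          linarith
  -- (V5)
  have V5 : ∀ t : ℝ, 0 < t → U ≤ (1 + t) * u 0 := by
    intro t ht
    have h1 : ∀ n, u n ≤ (1 + t) * u 0 + (1 + 1 / t) * (4 * (C ^ 2 * (U - u n))) := by
      intro n
      have h2 : ∀ g, nq ρ (Ψ g) ≤ (1 + t) * u 0 + (1 + 1 / t) • nq ρ (Ψ g - ρ g (Ψ 1)) := by
        intro g
        have h3 := nq_add_le hρ ht (ρ g (Ψ 1)) (Ψ g - ρ g (Ψ 1))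
        rw [nq_rho, add_sub_cancel] at h3
        rw [hu0, smul_eq_mul]
        exact h3
      calc u n ≤ ex s n (fun g => (1 + t) * u 0 + (1 + 1 / t) • nq ρ (Ψ g - ρ g (Ψ 1))) :=
            ex_mono s n h2
        _ = (1 + t) * u 0 + (1 + 1 / t) * ex s n (fun g => nq ρ (Ψ g - ρ g (Ψ 1))) := by
            rw [ex_add, ex_const, ex_smul, smul_eq_mul]
        _ ≤ _ := by
            have h4 := V4 n
            have h5 : 0 < 1 + 1 / t := by positivity
            gcongr
    have h2 : Tendsto (fun n => (1 + t) * u 0 + (1 + 1 / t) * (4 * (C ^ 2 * (U - u n)))) atTop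
        (𝓝 ((1 + t) * u 0 + (1 + 1 / t) * (4 * (C ^ 2 * (U - U))))) :=
      tendsto_const_nhds.add ((((tendsto_const_nhds.sub hlim).const_mul _).const_mul _).const_mul _)
    have h3 := le_of_tendsto_of_tendsto' hlim h2 h1
    simpa using h3
  have hUu : U ≤ u 0 := by
    have h1 : Tendsto (fun t : ℝ => (1 + t) * u 0) (𝓝[>] 0) (𝓝 ((1 + 0) * u 0)) := by
      refine Tendsto.mono_left ?_ nhdsWithin_le_nhds
      exact ((tendsto_const_nhds.add tendsto_id).mul_const _)
    rw [add_zero, one_mul] at h1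
    exact ge_of_tendsto h1 (eventually_nhdsWithin_of_forall fun t ht => V5 t ht)
  have hconst : ∀ n, u n = u 0 := fun n =>
    le_antisymm ((hle n).trans hUu) (hmono (Nat.zero_le n))
  -- conclusion
  have h6 : ∀ g ∈ Submonoid.closure (Set.range s), ∀ k, Ψ (g * s k) = Ψ g := by
    intro g hg k
    have h7 : ∀ n, ex s n (fun g => ex s 1 fun h => nq ρ (Ψ (g * h) - Ψ g)) = 0 := by
      intro n
      refine le_antisymm ?_ (ex_nonneg s n fun g => ex_nonneg s 1 fun h => nq_nonneg _)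
      refine (V1 n 1).trans (le_of_eq ?_)
      rw [hconst (n + 1), hconst n, sub_self, mul_zero]
    have h8 := reach s (f := fun g => ex s 1 fun h => nq ρ (Ψ (g * h) - Ψ g))
      (fun g => ex_nonneg s 1 fun h => nq_nonneg _) h7 hg
    simp only [ex_succ, ex_zero, one_mul] at h8
    have h9 := av_eq_zero (fun k => nq_nonneg (ρ := ρ) (Ψ (g * s k) - Ψ g)) h8 k
    exact sub_eq_zero.1 (nq_eq_zero hρ h9)
  intro g hg
  induction hg using Submonoid.closure_induction_right with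
  | one => rfl
  | mul_right x hx y hy ih =>
    obtain ⟨k, rfl⟩ := hy
    rw [h6 x hx k, ih]

end Main

end Pool.Agent.L7h53.I2
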