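import Pool.Agent.L7h53.I2.Sum
import Pool.Agent.L7h53.I2.Liouville

/-!
# Derivations from a Banach algebra generated by a bounded group into a finite-dimensional bimodule
-/

set_option autoImplicit false
set_option linter.unusedSectionVars false

namespace Pool.Agent.L7h53.I2

open Filter Topology Matrix

attribute [local instance] Matrix.linftyOpNormedRing Matrix.linftyOpNormedAlgebra

variable {A G n : Type*} [NormedRing A] [NormedAlgebra ℂ A] [Group G] [Fintype n] [DecidableEq n]

section Theta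

variable (π : A →ₐ[ℂ] Matrix n n ℂ) (δ : G →* A)

/-- The matrix `T ⊗ a`. -/
def tens (T : Matrix n n ℂ) (a : A) : Matrix n n A := Matrix.of fun i j => T i j • a

lemma tens_apply (T : Matrix n n ℂ) (a : A) (i j : n) : tens T a i j = T i j • a := rfl

lemma tens_mul (T T' : Matrix n n ℂ) (a a' : A) : tens T a * tens T' a' = tens (T * T') (a * a') := by
  ext i j
  rw [Matrix.mul_apply, tens_apply, Matrix.mul_apply, Finset.sum_smul]
  refine Finset.sum_congr rfl fun l _ => ?_
  rw [tens_apply, tens_apply, smul_mul_smul_comm]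

lemma tens_one : tens (1 : Matrix n n ℂ) (1 : A) = 1 := by
  ext i j
  rw [tens_apply, Matrix.one_apply, Matrix.one_apply]
  split_ifs <;> simp

/-- The representation `g ↦ π(δ g⁻¹)ᵀ ⊗ δ g`. -/
def theta : G →* Matrix n n A where
  toFun g := tens ((π (δ g⁻¹))ᵀ) (δ g)
  map_one' := by rw [inv_one, map_one, map_one, Matrix.transpose_one, tens_one]
  map_mul' g h := by
    rw [tens_mul, ← Matrix.transpose_mul, ← map_mul, ← map_mul, ← _root_.mul_inv_rev, map_mul δ g h]

lemma theta_apply (g : G) : theta π δ g = tens ((π (δ g⁻¹))ᵀ) (δ g) := rfl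

/-- The element `m`: the average of `theta`. -/
noncomputable def mm {κ : Type*} [Fintype κ] (s : κ → G) : Matrix n n A :=
  ((Fintype.card κ : ℂ))⁻¹ • ∑ k, theta π δ (s k)

lemma mm_pow_bound {κ : Type*} [Fintype κ] [Nonempty κ] (s : κ → G) {C : ℝ}
    (hC : ∀ g, ‖theta π δ g‖ ≤ C) (j : ℕ) : ‖(mm π δ s) ^ j‖ ≤ C := by
  have key : ∀ (j : ℕ) (g : G), ‖theta π δ g * (mm π δ s) ^ j‖ ≤ C := by
    intro j
    induction j with
    | zero => intro g; rw [pow_zero, mul_one]; exact hC g
    | succ j ih =>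
      intro g
      have h1 : theta π δ g * (mm π δ s) ^ (j + 1) =
          ((Fintype.card κ : ℂ))⁻¹ • ∑ k, theta π δ (g * s k) * (mm π δ s) ^ j := by
        have h0 : theta π δ g * mm π δ s =
            ((Fintype.card κ : ℂ))⁻¹ • ∑ k, theta π δ (g * s k) := by
          rw [mm, mul_smul_comm, Finset.mul_sum]
          simp only [map_mul]
        rw [pow_succ', ← mul_assoc, h0, smul_mul_assoc, Finset.sum_mul]
      rw [h1, norm_smul, norm_inv, Complex.norm_natCast]
      have h2 : ‖∑ k, theta π δ (g * s k) * (mm π δ s) ^ j‖ ≤ (Fintype.card κ : ℝ) * C := by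
        refine (norm_sum_le _ _).trans ?_
        refine (Finset.sum_le_card_nsmul _ _ C fun k _ => ih _).trans ?_
        rw [Finset.card_univ, nsmul_eq_mul]
      have h3 : (0 : ℝ) < Fintype.card κ := by exact_mod_cast Fintype.card_pos
      calc (Fintype.card κ : ℝ)⁻¹ * ‖∑ k, theta π δ (g * s k) * (mm π δ s) ^ j‖
          ≤ (Fintype.card κ : ℝ)⁻¹ * ((Fintype.card κ : ℝ) * C) := by gcongr
        _ = C := by field_simp
  have := key j 1
  rwa [map_one, one_mul] at this

end Theta

section Kappa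

variable (π : A →ₐ[ℂ] Matrix n n ℂ) (δ : G →* A)

/-- `(κR F) d c = ∑ b, π (F c b) d b` for a linear map `π`. -/
noncomputable def kR (L : A →ₗ[ℂ] Matrix n n ℂ) : Matrix n n A →ₗ[ℂ] Matrix n n ℂ where
  toFun F := Matrix.of fun d c => ∑ b, L (F c b) d b
  map_add' F H := by
    ext d c
    simp only [Matrix.of_apply, Matrix.add_apply, map_add, Finset.sum_add_distrib]
  map_smul' r F := by
    ext d c
    simp only [Matrix.of_apply, Matrix.smul_apply, map_smul, Finset.smul_sum, RingHom.id_apply]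

/-- `(κL F) d c = ∑ a, π (F a c) a d` for a linear map `π`. -/
noncomputable def kL (L : A →ₗ[ℂ] Matrix n n ℂ) : Matrix n n A →ₗ[ℂ] Matrix n n ℂ where
  toFun F := Matrix.of fun d c => ∑ a, L (F a c) a d
  map_add' F H := by
    ext d c
    simp only [Matrix.of_apply, Matrix.add_apply, map_add, Finset.sum_add_distrib]
  map_smul' r F := by
    ext d c
    simp only [Matrix.of_apply, Matrix.smul_apply, map_smul, Finset.smul_sum, RingHom.id_apply]

lemma kR_apply (L : A →ₗ[ℂ] Matrix n n ℂ) (F : Matrix n n A) (d c : n) :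
    kR L F d c = ∑ b, L (F c b) d b := rfl

lemma kL_apply (L : A →ₗ[ℂ] Matrix n n ℂ) (F : Matrix n n A) (d c : n) :
    kL L F d c = ∑ a, L (F a c) a d := rfl

/-- The functional `λ(F) = ∑ a b, D (F a b) a b`. -/
noncomputable def lam (D : A →ₗ[ℂ] Matrix n n ℂ) : Matrix n n A →ₗ[ℂ] ℂ where
  toFun F := ∑ a, ∑ b, D (F a b) a b
  map_add' F H := by
    simp only [Matrix.add_apply, map_add, Finset.sum_add_distrib]
  map_smul' r F := by
    simp only [Matrix.smul_apply, map_smul, Finset.smul_sum, RingHom.id_apply]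

lemma lam_apply (D : A →ₗ[ℂ] Matrix n n ℂ) (F : Matrix n n A) :
    lam D F = ∑ a, ∑ b, D (F a b) a b := rfl

lemma kR_theta (F : Matrix n n A) (g : G) :
    kR π.toLinearMap (F * theta π δ g) = kR π.toLinearMap F := by
  ext d c
  rw [kR_apply, kR_apply]
  have h1 : ∀ b, π.toLinearMap ((F * theta π δ g) c b) d b =
      ∑ l, (π (F c l) * π (δ g)) d b * π (δ g⁻¹) b l := by
    intro b
    rw [Matrix.mul_apply, map_sum, Matrix.sum_apply]
    refine Finset.sum_congr rfl fun l _ => ?_
    have h2 : π.toLinearMap (F c l * δ g) = π (F c l) * π (δ g) := map_mul π _ _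
    rw [theta_apply, tens_apply, mul_smul_comm, map_smul, Matrix.smul_apply, smul_eq_mul,
      Matrix.transpose_apply, mul_comm, h2]
  simp only [h1]
  rw [Finset.sum_comm]
  refine Finset.sum_congr rfl fun l _ => ?_
  have h3 : π (δ g) * π (δ g⁻¹) = 1 := by
    rw [← map_mul, ← map_mul, mul_inv_cancel, map_one, map_one]
  rw [← Matrix.mul_apply, mul_assoc, h3, mul_one]
  rfl

lemma kL_theta (F : Matrix n n A) (g : G) :
    kL π.toLinearMap (theta π δ g * F) = kL π.toLinearMap F := by
  ext d c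
  rw [kL_apply, kL_apply]
  have h1 : ∀ a, π.toLinearMap ((theta π δ g * F) a c) a d =
      ∑ l, π (δ g⁻¹) l a * (π (δ g) * π (F l c)) a d := by
    intro a
    rw [Matrix.mul_apply, map_sum, Matrix.sum_apply]
    refine Finset.sum_congr rfl fun l _ => ?_
    have h2 : π.toLinearMap (δ g * F l c) = π (δ g) * π (F l c) := map_mul π _ _
    rw [theta_apply, tens_apply, smul_mul_assoc, map_smul, Matrix.smul_apply, smul_eq_mul,
      Matrix.transpose_apply, h2]
  simp only [h1]
  rw [Finset.sum_comm]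
  refine Finset.sum_congr rfl fun l _ => ?_
  have h3 : π (δ g⁻¹) * π (δ g) = 1 := by
    rw [← map_mul, ← map_mul, inv_mul_cancel, map_one, map_one]
  rw [← Matrix.mul_apply, ← mul_assoc, h3, one_mul]
  rfl

variable {κ : Type*} [Fintype κ] [Nonempty κ] (s : κ → G)

lemma kR_mm (F : Matrix n n A) :
    kR π.toLinearMap (F * mm π δ s) = kR π.toLinearMap F := by
  rw [mm, mul_smul_comm, map_smul, Finset.mul_sum, map_sum]
  simp only [kR_theta]
  rw [Finset.sum_const, Finset.card_univ, ← Nat.cast_smul_eq_nsmul ℂ, smul_smul,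
    inv_mul_cancel₀ (by exact_mod_cast Fintype.card_ne_zero), one_smul]

lemma kL_mm (F : Matrix n n A) :
    kL π.toLinearMap (mm π δ s * F) = kL π.toLinearMap F := by
  rw [mm, smul_mul_assoc, map_smul, Finset.sum_mul, map_sum]
  simp only [kL_theta]
  rw [Finset.sum_const, Finset.card_univ, ← Nat.cast_smul_eq_nsmul ℂ, smul_smul,
    inv_mul_cancel₀ (by exact_mod_cast Fintype.card_ne_zero), one_smul]

lemma kR_pow (F : Matrix n n A) (j : ℕ) :
    kR π.toLinearMap (F * (mm π δ s) ^ j) = kR π.toLinearMap F := by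
  induction j with
  | zero => rw [pow_zero, mul_one]
  | succ j ih => rw [pow_succ, ← mul_assoc, kR_mm, ih]

lemma kL_pow (F : Matrix n n A) (j : ℕ) :
    kL π.toLinearMap ((mm π δ s) ^ j * F) = kL π.toLinearMap F := by
  induction j with
  | zero => rw [pow_zero, one_mul]
  | succ j ih => rw [pow_succ', mul_assoc, kL_mm, ih]

lemma kR_avg (F : Matrix n n A) (N : ℕ) :
    kR π.toLinearMap (F * avg (mm π δ s) N) = kR π.toLinearMap F := by
  rw [avg, mul_smul_comm, map_smul, Finset.mul_sum, map_sum]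
  simp only [kR_pow]
  have h0 : ((N : ℂ) + 1) ≠ 0 := by
    have : ((N : ℂ) + 1) = ((N + 1 : ℕ) : ℂ) := by push_cast; ring
    rw [this]; exact_mod_cast Nat.succ_ne_zero N
  rw [Finset.sum_const, Finset.card_range, ← Nat.cast_smul_eq_nsmul ℂ, smul_smul]
  push_cast
  rw [inv_mul_cancel₀ h0, one_smul]

lemma kL_avg (F : Matrix n n A) (N : ℕ) :
    kL π.toLinearMap (avg (mm π δ s) N * F) = kL π.toLinearMap F := by
  rw [avg, smul_mul_assoc, map_smul, Finset.sum_mul, map_sum]
  simp only [kL_pow]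
  have h0 : ((N : ℂ) + 1) ≠ 0 := by
    have : ((N : ℂ) + 1) = ((N + 1 : ℕ) : ℂ) := by push_cast; ring
    rw [this]; exact_mod_cast Nat.succ_ne_zero N
  rw [Finset.sum_const, Finset.card_range, ← Nat.cast_smul_eq_nsmul ℂ, smul_smul]
  push_cast
  rw [inv_mul_cancel₀ h0, one_smul]

variable {π} (hπ : Continuous π)

include hπ

lemma continuous_kR : Continuous (kR π.toLinearMap) := by
  refine continuous_matrix fun d c => ?_
  simp only [kR_apply]
  refine continuous_finsetSum _ fun b _ => ?_
  have h1 : Continuous fun F : Matrix n n A => F c b := by fun_prop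
  have h2 : Continuous fun a : A => π a d b := by fun_prop
  exact h2.comp h1

lemma continuous_kL : Continuous (kL π.toLinearMap) := by
  refine continuous_matrix fun d c => ?_
  simp only [kL_apply]
  refine continuous_finsetSum _ fun b _ => ?_
  have h1 : Continuous fun F : Matrix n n A => F b c := by fun_prop
  have h2 : Continuous fun a : A => π a b d := by fun_prop
  exact h2.comp h1

lemma kR_eq_zero {F : Matrix n n A} (hF : F ∈ Jr (mm π δ s)) : kR π.toLinearMap F = 0 := by
  have h1 := ((continuous_kR hπ).tendsto 0).comp (mem_Jr.1 hF)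
  rw [map_zero] at h1
  have h2 : (kR π.toLinearMap ∘ fun N => F * avg (mm π δ s) N) = fun _ => kR π.toLinearMap F :=
    funext fun N => kR_avg π δ s F N
  rw [h2] at h1
  exact tendsto_nhds_unique tendsto_const_nhds h1

lemma kL_eq_zero {F : Matrix n n A} (hF : F ∈ Jl (mm π δ s)) : kL π.toLinearMap F = 0 := by
  have h1 := ((continuous_kL hπ).tendsto 0).comp (mem_Jl.1 hF)
  rw [map_zero] at h1
  have h2 : (kL π.toLinearMap ∘ fun N => avg (mm π δ s) N * F) = fun _ => kL π.toLinearMap F :=
    funext fun N => kL_avg π δ s F N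
  rw [h2] at h1
  exact tendsto_nhds_unique tendsto_const_nhds h1

end Kappa

section Lambda

variable {π₁ π₂ : A →ₐ[ℂ] Matrix n n ℂ} {D : A →ₗ[ℂ] Matrix n n ℂ}

lemma lam_mul (hD : ∀ a b, D (a * b) = π₁ a * D b + D a * π₂ b) (F H : Matrix n n A) :
    lam D (F * H) = ∑ c, ∑ d, kL π₁.toLinearMap F d c * kR D H d c +
      ∑ c, ∑ d, kL D F d c * kR π₂.toLinearMap H d c := by
  have h1 : ∀ a b, D ((F * H) a b) a b =
      ∑ c, ∑ d, (π₁ (F a c) a d * D (H c b) d b + D (F a c) a d * π₂ (H c b) d b) := by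
    intro a b
    rw [Matrix.mul_apply, map_sum, Matrix.sum_apply]
    refine Finset.sum_congr rfl fun c _ => ?_
    rw [hD, Matrix.add_apply, Matrix.mul_apply, Matrix.mul_apply, ← Finset.sum_add_distrib]
  rw [lam_apply]
  simp only [h1]
  simp only [kL_apply, kR_apply, Finset.sum_mul_sum]
  have h2 : ∀ f : n → n → n → n → ℂ, ∑ a, ∑ b, ∑ c, ∑ d, f a b c d =
      ∑ c, ∑ d, ∑ a, ∑ b, f a b c d := by
    intro f
    calc ∑ a, ∑ b, ∑ c, ∑ d, f a b c d = ∑ a, ∑ c, ∑ b, ∑ d, f a b c d := by
          refine Finset.sum_congr rfl fun a _ => Finset.sum_comm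
      _ = ∑ c, ∑ a, ∑ b, ∑ d, f a b c d := Finset.sum_comm
      _ = ∑ c, ∑ a, ∑ d, ∑ b, f a b c d := by
          refine Finset.sum_congr rfl fun c _ => Finset.sum_congr rfl fun a _ => Finset.sum_comm
      _ = ∑ c, ∑ d, ∑ a, ∑ b, f a b c d := by
          refine Finset.sum_congr rfl fun c _ => Finset.sum_comm
  rw [h2]
  simp only [Finset.sum_add_distrib]
  rfl

end Lambda

end Pool.Agent.L7h53.I2
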