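import Pool.Agent.L7h53.I2.Main

/-!
# Closed ideals of finite codimension are idempotent
-/

set_option autoImplicit false
set_option linter.unusedSectionVars false

namespace Pool.Agent.L7h53.I2

open Filter Topology Matrix

variable {A : Type*} [NormedRing A] [NormedAlgebra ℂ A] (I : Submodule ℂ A)
  (hIl : ∀ a : A, ∀ x ∈ I, a * x ∈ I) (hIr : ∀ a : A, ∀ x ∈ I, x * a ∈ I)

/-- Left multiplication on the quotient. -/
noncomputable def ell (a : A) : (A ⧸ I) →ₗ[ℂ] (A ⧸ I) :=
  Submodule.mapQ I I (LinearMap.mulLeft ℂ a) (fun x hx => hIl a x hx)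

/-- Right multiplication on the quotient. -/
noncomputable def arr (a : A) : (A ⧸ I) →ₗ[ℂ] (A ⧸ I) :=
  Submodule.mapQ I I (LinearMap.mulRight ℂ a) (fun x hx => hIr a x hx)

lemma ell_mk (a x : A) : ell I hIl a (Submodule.Quotient.mk x) = Submodule.Quotient.mk (a * x) := rfl

lemma arr_mk (a x : A) : arr I hIr a (Submodule.Quotient.mk x) = Submodule.Quotient.mk (x * a) := rfl

lemma ell_add (a b : A) : ell I hIl (a + b) = ell I hIl a + ell I hIl b := by
  ext x
  show (Submodule.Quotient.mk ((a + b) * x) : A ⧸ I) = _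
  rw [add_mul]
  rfl

lemma ell_smul (c : ℂ) (a : A) : ell I hIl (c • a) = c • ell I hIl a := by
  ext x
  show (Submodule.Quotient.mk ((c • a) * x) : A ⧸ I) = _
  rw [smul_mul_assoc]
  rfl

lemma ell_mul (a b : A) : ell I hIl (a * b) = ell I hIl a ∘ₗ ell I hIl b := by
  ext x
  show (Submodule.Quotient.mk ((a * b) * x) : A ⧸ I) = _
  rw [mul_assoc]
  rfl

lemma ell_one : ell I hIl 1 = LinearMap.id := by
  ext x
  show (Submodule.Quotient.mk (1 * x) : A ⧸ I) = _
  rw [one_mul]
  rfl

lemma arr_add (a b : A) : arr I hIr (a + b) = arr I hIr a + arr I hIr b := by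
  ext x
  show (Submodule.Quotient.mk (x * (a + b)) : A ⧸ I) = _
  rw [mul_add]
  rfl

lemma arr_smul (c : ℂ) (a : A) : arr I hIr (c • a) = c • arr I hIr a := by
  ext x
  show (Submodule.Quotient.mk (x * (c • a)) : A ⧸ I) = _
  rw [mul_smul_comm]
  rfl

lemma arr_mul (a b : A) : arr I hIr (a * b) = arr I hIr b ∘ₗ arr I hIr a := by
  ext x
  show (Submodule.Quotient.mk (x * (a * b)) : A ⧸ I) = _
  rw [← mul_assoc]
  rfl

lemma arr_one : arr I hIr 1 = LinearMap.id := by
  ext x
  show (Submodule.Quotient.mk (x * 1) : A ⧸ I) = _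
  rw [mul_one]
  rfl

variable {n : Type} [Fintype n] [DecidableEq n] (b : Module.Basis n ℂ (A ⧸ I))

/-- The matrix representation by left multiplications. -/
noncomputable def piL : A →ₐ[ℂ] Matrix n n ℂ where
  toFun a := LinearMap.toMatrix b b (ell I hIl a)
  map_one' := by rw [ell_one, LinearMap.toMatrix_id]
  map_mul' a a' := by rw [ell_mul, LinearMap.toMatrix_comp b b b]
  map_zero' := by
    have : ell I hIl 0 = 0 := by
      have := ell_smul I hIl 0 0
      rwa [zero_smul, zero_smul] at this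
    rw [this, map_zero]
  map_add' a a' := by rw [ell_add, map_add]
  commutes' r := by
    have h1 : (algebraMap ℂ A r) = r • (1 : A) := Algebra.algebraMap_eq_smul_one r
    rw [h1, ell_smul, ell_one, map_smul, LinearMap.toMatrix_id, Algebra.algebraMap_eq_smul_one]

/-- The matrix representation by right multiplications (transposed). -/
noncomputable def piR : A →ₐ[ℂ] Matrix n n ℂ where
  toFun a := (LinearMap.toMatrix b b (arr I hIr a))ᵀ
  map_one' := by rw [arr_one, LinearMap.toMatrix_id, Matrix.transpose_one]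
  map_mul' a a' := by rw [arr_mul, LinearMap.toMatrix_comp b b b, Matrix.transpose_mul]
  map_zero' := by
    have : arr I hIr 0 = 0 := by
      have := arr_smul I hIr 0 0
      rwa [zero_smul, zero_smul] at this
    rw [this, map_zero, Matrix.transpose_zero]
  map_add' a a' := by rw [arr_add, map_add, Matrix.transpose_add]
  commutes' r := by
    have h1 : (algebraMap ℂ A r) = r • (1 : A) := Algebra.algebraMap_eq_smul_one r
    rw [h1, arr_smul, arr_one, map_smul, LinearMap.toMatrix_id, Algebra.algebraMap_eq_smul_one,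
      Matrix.transpose_smul, Matrix.transpose_one]

lemma piL_apply (a : A) (i j : n) : piL I hIl b a i j = b.repr (ell I hIl a (b j)) i :=
  LinearMap.toMatrix_apply b b _ i j

lemma piR_apply (a : A) (i j : n) : piR I hIr b a i j = b.repr (arr I hIr a (b i)) j :=
  LinearMap.toMatrix_apply b b _ j i

lemma continuous_piL (hcl : IsClosed (I : Set A)) [FiniteDimensional ℂ (A ⧸ I)] :
    Continuous (piL I hIl b) := by
  have : IsClosed ((I : Submodule ℂ A) : Set A) := hcl
  refine continuous_matrix fun i j => ?_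
  simp only [piL_apply]
  obtain ⟨x, hx⟩ := Submodule.Quotient.mk_surjective I (b j)
  simp only [← hx, ell_mk]
  have h1 : Continuous (b.coord i) := LinearMap.continuous_of_finiteDimensional _
  have h2 : Continuous fun a : A => (Submodule.Quotient.mk (a * x) : A ⧸ I) :=
    (Submodule.mkQL I).continuous.comp (continuous_mul_const x)
  exact h1.comp h2

lemma continuous_piR (hcl : IsClosed (I : Set A)) [FiniteDimensional ℂ (A ⧸ I)] :
    Continuous (piR I hIr b) := by
  have : IsClosed ((I : Submodule ℂ A) : Set A) := hcl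
  refine continuous_matrix fun i j => ?_
  simp only [piR_apply]
  obtain ⟨x, hx⟩ := Submodule.Quotient.mk_surjective I (b i)
  simp only [← hx, arr_mk]
  have h1 : Continuous (b.coord j) := LinearMap.continuous_of_finiteDimensional _
  have h2 : Continuous fun a : A => (Submodule.Quotient.mk (x * a) : A ⧸ I) :=
    (Submodule.mkQL I).continuous.comp (continuous_const_mul x)
  exact h1.comp h2

lemma ell_eq_zero {f : A} (hf : f ∈ I) (hIr : ∀ a : A, ∀ x ∈ I, x * a ∈ I) : ell I hIl f = 0 := by
  ext x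
  show (Submodule.Quotient.mk (f * x) : A ⧸ I) = 0
  exact (Submodule.Quotient.mk_eq_zero I).2 (hIr x f hf)

lemma arr_eq_zero {f : A} (hf : f ∈ I) (hIl : ∀ a : A, ∀ x ∈ I, a * x ∈ I) : arr I hIr f = 0 := by
  ext x
  show (Submodule.Quotient.mk (x * f) : A ⧸ I) = 0
  exact (Submodule.Quotient.mk_eq_zero I).2 (hIl x f hf)

section Beta

variable (φ : A →ₗ[ℂ] ℂ) (σ : (A ⧸ I) →ₗ[ℂ] A)

/-- The bilinear form `(x, y) ↦ φ(σ(y) (a σ(x) - σ(a x)))`. -/
noncomputable def beta (a : A) : (A ⧸ I) →ₗ[ℂ] (A ⧸ I) →ₗ[ℂ] ℂ :=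
  LinearMap.mk₂ ℂ (fun x y => φ (σ y * (a * σ x - σ (ell I hIl a x))))
    (fun x x' y => by
      rw [← map_add, map_add σ, map_add (ell I hIl a), map_add σ]
      congr 1
      noncomm_ring)
    (fun c x y => by
      rw [← map_smul, map_smul σ, map_smul (ell I hIl a), map_smul σ, mul_smul_comm, ← smul_sub,
        mul_smul_comm])
    (fun x y y' => by
      rw [← map_add, map_add σ, add_mul])
    (fun c x y => by
      rw [← map_smul, map_smul σ, smul_mul_assoc])

lemma beta_apply (a : A) (x y : A ⧸ I) :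
    beta I hIl φ σ a x y = φ (σ y * (a * σ x - σ (ell I hIl a x))) := rfl

/-- The matrix of `beta`. -/
noncomputable def DD : A →ₗ[ℂ] Matrix n n ℂ where
  toFun a := Matrix.of fun i j => beta I hIl φ σ a (b j) (b i)
  map_add' a a' := by
    ext i j
    simp only [Matrix.of_apply, Matrix.add_apply, beta_apply]
    rw [← map_add, ell_add, LinearMap.add_apply, map_add σ]
    congr 1
    noncomm_ring
  map_smul' c a := by
    ext i j
    simp only [Matrix.of_apply, Matrix.smul_apply, beta_apply, RingHom.id_apply]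
    rw [← map_smul, ell_smul, LinearMap.smul_apply, map_smul σ, smul_mul_assoc, ← smul_sub,
      mul_smul_comm]

lemma DD_apply (a : A) (i j : n) : DD I hIl b φ σ a i j = beta I hIl φ σ a (b j) (b i) := rfl

lemma beta_mul (hσ : ∀ x, (Submodule.Quotient.mk (σ x) : A ⧸ I) = x)
    (hφ : ∀ x ∈ I, ∀ y ∈ I, φ (x * y) = 0) (a c : A) (x y : A ⧸ I) :
    beta I hIl φ σ (a * c) x y =
      beta I hIl φ σ c x (arr I hIr a y) + beta I hIl φ σ a (ell I hIl c x) y := by
  simp only [beta_apply]
  have h1 : c * σ x - σ (ell I hIl c x) ∈ I := by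
    rw [← Submodule.Quotient.mk_eq_zero, Submodule.Quotient.mk_sub, hσ, ← ell_mk I hIl, hσ, sub_self]
  have h2 : σ y * a - σ (arr I hIr a y) ∈ I := by
    rw [← Submodule.Quotient.mk_eq_zero, Submodule.Quotient.mk_sub, hσ, ← arr_mk I hIr, hσ, sub_self]
  have h3 := hφ _ h2 _ h1
  have h4 : σ y * (a * c * σ x - σ (ell I hIl (a * c) x)) =
      (σ y * a - σ (arr I hIr a y)) * (c * σ x - σ (ell I hIl c x)) +
        (σ (arr I hIr a y) * (c * σ x - σ (ell I hIl c x)) +
          σ y * (a * σ (ell I hIl c x) - σ (ell I hIl a (ell I hIl c x)))) := by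
    rw [ell_mul, LinearMap.comp_apply]
    noncomm_ring
  rw [h4, map_add, map_add, h3, zero_add]

lemma DD_mul (hσ : ∀ x, (Submodule.Quotient.mk (σ x) : A ⧸ I) = x)
    (hφ : ∀ x ∈ I, ∀ y ∈ I, φ (x * y) = 0) (a c : A) :
    DD I hIl b φ σ (a * c) =
      piR I hIr b a * DD I hIl b φ σ c + DD I hIl b φ σ a * piL I hIl b c := by
  ext i j
  rw [Matrix.add_apply, Matrix.mul_apply, Matrix.mul_apply, DD_apply,
    beta_mul I hIl hIr φ σ hσ hφ]
  congr 1
  · conv_lhs => rw [← b.sum_repr (arr I hIr a (b i))]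
    rw [map_sum]
    refine Finset.sum_congr rfl fun k _ => ?_
    rw [map_smul, smul_eq_mul, DD_apply, piR_apply]
  · conv_lhs => rw [← b.sum_repr (ell I hIl c (b j))]
    rw [map_sum, LinearMap.sum_apply]
    refine Finset.sum_congr rfl fun k _ => ?_
    rw [map_smul, LinearMap.smul_apply, smul_eq_mul, DD_apply, piL_apply, mul_comm]

end Beta

include hIl hIr in
/-- **Theorem.** In a Banach algebra which is generated by a bounded finitely generated group, every
closed ideal of finite codimension is idempotent. -/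
theorem ideal_idempotent [CompleteSpace A] {G κ : Type*} [Group G] [Fintype κ] [Nonempty κ]
    {δ : G →* A} (hδ : ∀ g, ‖δ g‖ ≤ 1) (s : κ → G)
    (hs : Submonoid.closure (Set.range s) = ⊤)
    (hdense : (Submodule.span ℂ (Set.range δ)).topologicalClosure = ⊤)
    (hcl : IsClosed (I : Set A)) (hfd : FiniteDimensional ℂ (A ⧸ I)) (c : A) (hc : c ∈ I) :
    c ∈ Submodule.span ℂ {d : A | ∃ a ∈ I, ∃ b ∈ I, d = a * b} := by
  by_contra hcon
  obtain ⟨φ, hφc, hφ⟩ := Submodule.exists_le_ker_of_notMem hcon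
  have hφ' : ∀ x ∈ I, ∀ y ∈ I, φ (x * y) = 0 := fun x hx y hy =>
    hφ (Submodule.subset_span ⟨x, hx, y, hy, rfl⟩)
  obtain ⟨σ, hσ⟩ := (Submodule.mkQ I).exists_rightInverse_of_surjective (Submodule.range_mkQ I)
  have hσ' : ∀ x, (Submodule.Quotient.mk (σ x) : A ⧸ I) = x := fun x => LinearMap.congr_fun hσ x
  let b := Module.finBasis ℂ (A ⧸ I)
  have h0 : DD I hIl b φ σ c = 0 := by
    refine derivation_vanishes (continuous_piR I hIr b hcl) (continuous_piL I hIl b hcl) hδ s hs
      hdense (DD_mul I hIl hIr b φ σ hσ' hφ') ?_ ?_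
    · ext i j
      rw [piR_apply, arr_eq_zero I hIr hc hIl]
      simp
    · ext i j
      rw [piL_apply, ell_eq_zero I hIl hc hIr]
      simp
  have h1 : beta I hIl φ σ c = 0 := by
    refine b.ext fun j => b.ext fun i => ?_
    rw [← DD_apply, h0]
    rfl
  have h2 : beta I hIl φ σ c (Submodule.Quotient.mk 1) (Submodule.Quotient.mk 1) = 0 := by
    rw [h1]
    rfl
  rw [beta_apply, ell_eq_zero I hIl hc hIr, LinearMap.zero_apply, map_zero, sub_zero] at h2
  set e := σ (Submodule.Quotient.mk 1) with he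
  have h3 : e - 1 ∈ I := by
    rw [← Submodule.Quotient.mk_eq_zero, Submodule.Quotient.mk_sub, he, hσ', sub_self]
  have h4 : e * (c * e) = c + ((e - 1) * c + c * (e - 1) + ((e - 1) * c) * (e - 1)) := by
    noncomm_ring
  rw [h4, map_add, map_add, map_add, hφ' _ h3 _ hc, hφ' _ hc _ h3,
    hφ' _ (hIr _ _ h3) _ h3] at h2
  simp only [add_zero] at h2
  exact hφc h2

end Pool.Agent.L7h53.I2
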