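import Pool.Agent.L7h53.I2.Deriv

/-!
# Vanishing of derivations on the kernels
-/

set_option autoImplicit false
set_option linter.unusedSectionVars false

namespace Pool.Agent.L7h53.I2

open Filter Topology Matrix

attribute [local instance] Matrix.linftyOpNormedRing Matrix.linftyOpNormedAlgebra

variable {A G n κ : Type*} [NormedRing A] [NormedAlgebra ℂ A] [Group G] [Fintype n] [DecidableEq n]
  [Fintype κ] [Nonempty κ]

lemma unif_eq : (@PseudoMetricSpace.toUniformSpace _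
    (Matrix.linftyOpNormedRing : NormedRing (Matrix n n A)).toMetricSpace.toPseudoMetricSpace) =
      Matrix.instUniformSpace n n A := rfl

lemma complete_matrix [CompleteSpace A] : @CompleteSpace (Matrix n n A)
    (@PseudoMetricSpace.toUniformSpace _
      (Matrix.linftyOpNormedRing : NormedRing (Matrix n n A)).toMetricSpace.toPseudoMetricSpace) := by
  rw [unif_eq]
  infer_instance

lemma norm_le_sum (M : Matrix n n A) : ‖M‖ ≤ ∑ i, ∑ j, ‖M i j‖ := by
  rw [Matrix.linfty_opNorm_def]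
  have h : (Finset.univ.sup fun i => ∑ j, ‖M i j‖₊) ≤ ∑ i, ∑ j, ‖M i j‖₊ := by
    refine Finset.sup_le fun i _ => ?_
    exact Finset.single_le_sum (f := fun i => ∑ j, ‖M i j‖₊) (fun _ _ => zero_le)
      (Finset.mem_univ i)
  have h2 : ((∑ i, ∑ j, ‖M i j‖₊ : NNReal) : ℝ) = ∑ i, ∑ j, ‖M i j‖ := by push_cast; rfl
  rw [← h2]
  exact_mod_cast h

lemma norm_tens_le (T : Matrix n n ℂ) (a : A) : ‖tens T a‖ ≤ (∑ i, ∑ j, ‖T i j‖) * ‖a‖ := by
  refine (norm_le_sum _).trans (le_of_eq ?_)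
  rw [Finset.sum_mul]
  refine Finset.sum_congr rfl fun i _ => ?_
  rw [Finset.sum_mul]
  refine Finset.sum_congr rfl fun j _ => ?_
  rw [tens_apply, norm_smul]

/-- Entries of a continuous representation are bounded on a bounded group. -/
lemma exists_bound {π : A →ₐ[ℂ] Matrix n n ℂ} (hπ : Continuous π) {δ : G →* A}
    (hδ : ∀ g, ‖δ g‖ ≤ 1) : ∃ c : ℝ, 0 ≤ c ∧ ∀ g i j, ‖π (δ g) i j‖ ≤ c := by
  have h1 : ∀ i j, ∃ c : ℝ, ∀ g, ‖π (δ g) i j‖ ≤ c := by
    intro i j
    let f : A →L[ℂ] ℂ :=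
      { toFun := fun a => π a i j
        map_add' := fun a b => by rw [map_add, Matrix.add_apply]
        map_smul' := fun c a => by rw [map_smul, Matrix.smul_apply, RingHom.id_apply]
        cont := by
          have h2 : Continuous fun a : A => π a i j := by fun_prop
          exact h2 }
    refine ⟨‖f‖, fun g => ?_⟩
    have := f.le_opNorm (δ g)
    calc ‖π (δ g) i j‖ ≤ ‖f‖ * ‖δ g‖ := this
      _ ≤ ‖f‖ * 1 := mul_le_mul_of_nonneg_left (hδ g) (norm_nonneg _)
      _ = ‖f‖ := mul_one _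
  choose c hc using h1
  refine ⟨∑ i, ∑ j, |c i j|, by positivity, fun g i j => ?_⟩
  calc ‖π (δ g) i j‖ ≤ c i j := hc i j g
    _ ≤ |c i j| := le_abs_self _
    _ ≤ ∑ j, |c i j| := Finset.single_le_sum (f := fun j => |c i j|) (fun _ _ => abs_nonneg _)
        (Finset.mem_univ j)
    _ ≤ ∑ i, ∑ j, |c i j| := Finset.single_le_sum (f := fun i => ∑ j, |c i j|)
        (fun _ _ => Finset.sum_nonneg fun _ _ => abs_nonneg _) (Finset.mem_univ i)

lemma theta_bound {π : A →ₐ[ℂ] Matrix n n ℂ} {δ : G →* A} (hδ : ∀ g, ‖δ g‖ ≤ 1) {c : ℝ}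
    (hc : ∀ g i j, ‖π (δ g) i j‖ ≤ c) (g : G) :
    ‖theta π δ g‖ ≤ (Fintype.card n : ℝ) * ((Fintype.card n : ℝ) * c) := by
  rw [theta_apply]
  refine (norm_tens_le _ _).trans ?_
  have h1 : ∑ i, ∑ j, ‖(π (δ g⁻¹))ᵀ i j‖ ≤ (Fintype.card n : ℝ) * ((Fintype.card n : ℝ) * c) := by
    have h2 : ∀ i, ∑ j, ‖(π (δ g⁻¹))ᵀ i j‖ ≤ (Fintype.card n : ℝ) * c := by
      intro i
      refine (Finset.sum_le_card_nsmul _ _ c fun j _ => ?_).trans ?_
      · rw [Matrix.transpose_apply]; exact hc _ _ _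
      · rw [Finset.card_univ, nsmul_eq_mul]
    refine (Finset.sum_le_card_nsmul _ _ _ fun i _ => h2 i).trans ?_
    rw [Finset.card_univ, nsmul_eq_mul]
  have h3 : 0 ≤ ∑ i, ∑ j, ‖(π (δ g⁻¹))ᵀ i j‖ :=
    Finset.sum_nonneg fun _ _ => Finset.sum_nonneg fun _ _ => norm_nonneg _
  calc (∑ i, ∑ j, ‖(π (δ g⁻¹))ᵀ i j‖) * ‖δ g‖ ≤ (∑ i, ∑ j, ‖(π (δ g⁻¹))ᵀ i j‖) * 1 :=
        mul_le_mul_of_nonneg_left (hδ g) h3
    _ ≤ _ := by rw [mul_one]; exact h1

section Rep

variable (π₁ π₂ : A →ₐ[ℂ] Matrix n n ℂ) (δ : G →* A)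

/-- Vectors and matrices. -/
def toM (v : EuclideanSpace ℂ (n × n)) : Matrix n n ℂ := Matrix.of fun a b => v (a, b)

/-- Matrices and vectors. -/
def ofM (M : Matrix n n ℂ) : EuclideanSpace ℂ (n × n) := WithLp.toLp 2 fun p => M p.1 p.2

lemma toM_apply (v : EuclideanSpace ℂ (n × n)) (a b : n) : toM v a b = v (a, b) := rfl

lemma ofM_apply (M : Matrix n n ℂ) (p : n × n) : ofM M p = M p.1 p.2 := rfl

lemma toM_ofM (M : Matrix n n ℂ) : toM (ofM M) = M := rfl

/-- The representation `v ↦ π₁(g) v π₂(g⁻¹)`. -/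
noncomputable def rho : G →* (EuclideanSpace ℂ (n × n) →ₗ[ℝ] EuclideanSpace ℂ (n × n)) where
  toFun g :=
    { toFun := fun v => ofM (π₁ (δ g) * toM v * π₂ (δ g⁻¹))
      map_add' := fun v w => by
        have h1 : toM (v + w) = toM v + toM w := rfl
        rw [h1, mul_add, add_mul]
        rfl
      map_smul' := fun r v => by
        have h1 : toM (r • v) = (r : ℂ) • toM v := by
          ext a b
          rw [toM_apply, Matrix.smul_apply, toM_apply, PiLp.smul_apply, Complex.real_smul,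
            smul_eq_mul]
        rw [h1, mul_smul_comm, smul_mul_assoc]
        ext p
        rw [ofM_apply, Matrix.smul_apply, PiLp.smul_apply, ofM_apply, Complex.real_smul,
          smul_eq_mul, RingHom.id_apply] }
  map_one' := by
    ext v p
    show ofM (π₁ (δ 1) * toM v * π₂ (δ 1⁻¹)) p = v p
    rw [inv_one, map_one, map_one, map_one, one_mul, mul_one]
    rfl
  map_mul' g h := by
    ext v p
    show ofM (π₁ (δ (g * h)) * toM v * π₂ (δ (g * h)⁻¹)) p =
      ofM (π₁ (δ g) * toM (ofM (π₁ (δ h) * toM v * π₂ (δ h⁻¹))) * π₂ (δ g⁻¹)) p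
    rw [toM_ofM, _root_.mul_inv_rev, map_mul, map_mul, map_mul, map_mul]
    simp only [mul_assoc]

lemma rho_apply (g : G) (v : EuclideanSpace ℂ (n × n)) (a b : n) :
    rho π₁ π₂ δ g v (a, b) = (π₁ (δ g) * toM v * π₂ (δ g⁻¹)) a b := rfl

lemma norm_le_card {ι : Type*} [Fintype ι] (v : EuclideanSpace ℂ ι) {K : ℝ} (hK : 0 ≤ K)
    (h : ∀ p, ‖v p‖ ≤ K) : ‖v‖ ≤ (Fintype.card ι + 1 : ℝ) * K := by
  rw [EuclideanSpace.norm_eq]
  rw [Real.sqrt_le_left (by positivity)]
  calc ∑ i, ‖v i‖ ^ 2 ≤ ∑ _i : ι, K ^ 2 :=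
        Finset.sum_le_sum fun i _ => pow_le_pow_left₀ (norm_nonneg _) (h i) 2
    _ = (Fintype.card ι : ℝ) * K ^ 2 := by
        rw [Finset.sum_const, Finset.card_univ, nsmul_eq_mul]
    _ ≤ ((Fintype.card ι + 1 : ℝ) * K) ^ 2 := by
        have h1 : (0 : ℝ) ≤ Fintype.card ι := by positivity
        have h2 : 0 ≤ K ^ 2 := by positivity
        nlinarith [mul_nonneg h1 h2, mul_nonneg (mul_nonneg h1 h1) h2]

variable {π₁ π₂ δ}

lemma rho_bound {c₁ c₂ : ℝ} (h0 : 0 ≤ c₁) (h0' : 0 ≤ c₂) (h1 : ∀ g i j, ‖π₁ (δ g) i j‖ ≤ c₁)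
    (h2 : ∀ g i j, ‖π₂ (δ g) i j‖ ≤ c₂) (g : G) (v : EuclideanSpace ℂ (n × n)) :
    ‖rho π₁ π₂ δ g v‖ ≤ ((Fintype.card (n × n) + 1 : ℝ) *
      ((Fintype.card n : ℝ) * ((Fintype.card n : ℝ) * (c₁ * c₂)))) * ‖v‖ := by
  have h3 : ∀ p, ‖rho π₁ π₂ δ g v p‖ ≤
      ((Fintype.card n : ℝ) * ((Fintype.card n : ℝ) * (c₁ * c₂))) * ‖v‖ := by
    rintro ⟨a, b⟩
    rw [rho_apply, Matrix.mul_apply]
    have h4 : ∀ j, ‖(π₁ (δ g) * toM v) a j * π₂ (δ g⁻¹) j b‖ ≤
        (Fintype.card n : ℝ) * (c₁ * ‖v‖) * c₂ := by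
      intro j
      rw [norm_mul]
      refine mul_le_mul ?_ (h2 _ _ _) (norm_nonneg _) (by positivity)
      rw [Matrix.mul_apply]
      refine (norm_sum_le _ _).trans ((Finset.sum_le_card_nsmul _ _ (c₁ * ‖v‖) fun i _ => ?_).trans ?_)
      · rw [norm_mul]
        refine mul_le_mul (h1 _ _ _) ?_ (norm_nonneg _) h0
        rw [toM_apply]
        exact PiLp.norm_apply_le v _
      · rw [Finset.card_univ, nsmul_eq_mul]
    refine (norm_sum_le _ _).trans ((Finset.sum_le_card_nsmul _ _ _ fun j _ => h4 j).trans ?_)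
    rw [Finset.card_univ, nsmul_eq_mul]
    apply le_of_eq
    ring
  refine (norm_le_card _ (by positivity) h3).trans (le_of_eq ?_)
  ring

end Rep

/-- Hahn-Banach: points outside of the closure of a subspace. -/
lemma exists_functional {E : Type*} [NormedAddCommGroup E] [NormedSpace ℂ E] {p : Submodule ℂ E}
    {x : E} (hx : x ∉ p.topologicalClosure) :
    ∃ (Φ : E →ₗ[ℂ] ℂ) (K : ℝ), (∀ y, ‖Φ y‖ ≤ K * ‖y‖) ∧ (∀ y ∈ p, Φ y = 0) ∧ Φ x ≠ 0 := by
  have hcl : IsClosed (p.topologicalClosure : Set E) := p.isClosed_topologicalClosure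
  have : IsClosed ((p.topologicalClosure : Submodule ℂ E) : Set E) := hcl
  let q := p.topologicalClosure
  have hne : (Submodule.Quotient.mk x : E ⧸ q) ≠ 0 := by
    intro h
    exact hx ((Submodule.Quotient.mk_eq_zero q).1 h)
  obtain ⟨g, hg, hgx⟩ := exists_dual_vector ℂ (Submodule.Quotient.mk x : E ⧸ q) (norm_ne_zero_iff.2 hne)
  refine ⟨(g.comp q.mkQL : E →L[ℂ] ℂ), ‖g.comp q.mkQL‖, (g.comp q.mkQL).le_opNorm,
    fun y hy => ?_, ?_⟩
  · have h1 : (Submodule.Quotient.mk y : E ⧸ q) = 0 :=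
      (Submodule.Quotient.mk_eq_zero q).2 (p.le_topologicalClosure hy)
    show g (Submodule.Quotient.mk y) = 0
    rw [h1, map_zero]
  · show g (Submodule.Quotient.mk x) ≠ 0
    rw [hgx]
    exact Complex.ofReal_ne_zero.2 (norm_ne_zero_iff.2 hne)

section Key

variable {π₁ π₂ : A →ₐ[ℂ] Matrix n n ℂ} (h₁ : Continuous π₁) (h₂ : Continuous π₂)
  {δ : G →* A} (hδ : ∀ g, ‖δ g‖ ≤ 1) (s : κ → G) (hs : Submonoid.closure (Set.range s) = ⊤)

lemma tens_add (T T' : Matrix n n ℂ) (a : A) : tens (T + T') a = tens T a + tens T' a := by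
  ext i j
  simp only [tens_apply, Matrix.add_apply, add_smul]

lemma tens_smul (r : ℂ) (T : Matrix n n ℂ) (a : A) : tens (r • T) a = r • tens T a := by
  ext i j
  simp only [tens_apply, Matrix.smul_apply, smul_eq_mul, mul_smul]

/-- The linear map `T ↦ tens T a`. -/
noncomputable def tensL (a : A) : Matrix n n ℂ →ₗ[ℂ] Matrix n n A where
  toFun T := tens T a
  map_add' T T' := tens_add T T' a
  map_smul' r T := tens_smul r T a

lemma continuous_tens (T : Matrix n n ℂ) : Continuous fun a : A => tens T a := by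
  refine continuous_matrix fun i j => ?_
  simp only [tens_apply]
  exact continuous_const_smul _

include h₁ h₂ hδ hs

/-- A functional which vanishes on the two ideals is constant along the group. -/
lemma functional_const (Φ : Matrix n n A →ₗ[ℂ] ℂ) (K₀ : ℝ) (hΦ : ∀ x, ‖Φ x‖ ≤ K₀ * ‖x‖)
    (hr : ∀ y ∈ Jr (mm π₂ δ s), Φ y = 0) (hl : ∀ y ∈ Jl (mm π₁ δ s), Φ y = 0)
    (T : Matrix n n ℂ) (g : G) : Φ (tens T 1 * theta π₂ δ g) = Φ (tens T 1) := by
  obtain ⟨c₁, hc₁0, hc₁⟩ := exists_bound h₁ hδ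
  obtain ⟨c₂, hc₂0, hc₂⟩ := exists_bound h₂ hδ
  have hm₁ := mm_pow_bound π₁ δ s (theta_bound hδ hc₁)
  have hm₂ := mm_pow_bound π₂ δ s (theta_bound hδ hc₂)
  -- the function
  let Ψ : G → EuclideanSpace ℂ (n × n) := fun g =>
    WithLp.toLp 2 fun p => Φ (tens (Matrix.single p.1 p.2 1) 1 * theta π₂ δ g)
  have hΨ : ∀ g p, Ψ g p = Φ (tens (Matrix.single p.1 p.2 1) 1 * theta π₂ δ g) := fun _ _ => rfl
  have hcard : ((Fintype.card κ : ℝ)) ≠ 0 := by exact_mod_cast Fintype.card_ne_zero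
  -- expansion
  have hexp : ∀ (T : Matrix n n ℂ) (g : G),
      Φ (tens T 1 * theta π₂ δ g) = ∑ a, ∑ b, T a b * Ψ g (a, b) := by
    intro T g
    let L : Matrix n n ℂ →ₗ[ℂ] ℂ :=
      Φ.comp ((LinearMap.mulRight ℂ (theta π₂ δ g)).comp (tensL 1))
    have hL : ∀ T, L T = Φ (tens T 1 * theta π₂ δ g) := fun T => rfl
    rw [← hL]
    conv_lhs => rw [Matrix.matrix_eq_sum_single T]
    rw [map_sum]
    refine Finset.sum_congr rfl fun a _ => ?_
    rw [map_sum]
    refine Finset.sum_congr rfl fun b _ => ?_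
    rw [hΨ, ← hL]
    have : Matrix.single a b (T a b) = T a b • Matrix.single a b (1 : ℂ) := by
      rw [Matrix.smul_single, smul_eq_mul, mul_one]
    rw [this, map_smul, smul_eq_mul]
  -- bounded
  have hb : ∃ K, ∀ g, ‖Ψ g‖ ≤ K := by
    have h3 : ∀ (T : Matrix n n ℂ), ∃ K, ∀ g, ‖Φ (tens T 1 * theta π₂ δ g)‖ ≤ K := by
      intro T
      refine ⟨|K₀| * (‖(tens T 1 : Matrix n n A)‖ *
        ((Fintype.card n : ℝ) * ((Fintype.card n : ℝ) * c₂))), fun g => ?_⟩
      refine ((hΦ _).trans (mul_le_mul_of_nonneg_right (le_abs_self _) (norm_nonneg _))).trans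
        (mul_le_mul_of_nonneg_left ?_ (abs_nonneg _))
      exact (norm_mul_le _ _).trans
        (mul_le_mul_of_nonneg_left (theta_bound hδ hc₂ g) (norm_nonneg _))
    choose K hK using h3
    refine ⟨(Fintype.card (n × n) + 1 : ℝ) * ∑ p : n × n, |K (Matrix.single p.1 p.2 1)|,
      fun g => norm_le_card _ (by positivity) fun p => ?_⟩
    rw [hΨ]
    refine ((hK _ g).trans (le_abs_self _)).trans ?_
    exact Finset.single_le_sum (f := fun p : n × n => |K (Matrix.single p.1 p.2 1)|)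
      (fun _ _ => abs_nonneg _) (Finset.mem_univ p)
  obtain ⟨K, hK⟩ := hb
  -- right harmonic
  have hr' : ∀ g, av (fun k => Ψ (g * s k)) = Ψ g := by
    intro g
    ext p
    have h3 : Φ (tens (Matrix.single p.1 p.2 1) 1 * theta π₂ δ g * (1 - mm π₂ δ s)) = 0 :=
      hr _ (mul_mem_Jr (one_sub_mem_Jr hm₂) _)
    rw [mul_sub, mul_one, map_sub, sub_eq_zero] at h3
    rw [hΨ, h3, mm, mul_smul_comm, map_smul, Finset.mul_sum, map_sum]
    unfold av
    rw [PiLp.smul_apply, WithLp.ofLp_sum, Finset.sum_apply, Complex.real_smul, smul_eq_mul]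
    push_cast
    congr 1
    refine Finset.sum_congr rfl fun k _ => ?_
    show Ψ (g * s k) p = _
    rw [hΨ, map_mul (theta π₂ δ), mul_assoc]
  -- left twisted harmonic
  have hl' : ∀ g, av (fun k => rho π₁ π₂ δ (s k)⁻¹ (Ψ (s k * g))) = Ψ g := by
    intro g
    ext p
    have h3 : Φ ((1 - mm π₁ δ s) * (tens (Matrix.single p.1 p.2 1) 1 * theta π₂ δ g)) = 0 :=
      hl _ (mul_mem_Jl (one_sub_mem_Jl hm₁) _)
    rw [sub_mul, one_mul, map_sub, sub_eq_zero] at h3
    rw [hΨ, h3, mm, smul_mul_assoc, map_smul, Finset.sum_mul, map_sum]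
    unfold av
    rw [PiLp.smul_apply, WithLp.ofLp_sum, Finset.sum_apply, Complex.real_smul, smul_eq_mul]
    push_cast
    congr 1
    refine Finset.sum_congr rfl fun k _ => ?_
    -- move `theta π₁` to the other side
    have h4 : theta π₁ δ (s k) * (tens (Matrix.single p.1 p.2 1) 1 * theta π₂ δ g) =
        tens ((π₁ (δ (s k)⁻¹))ᵀ * Matrix.single p.1 p.2 1 * (π₂ (δ (s k)))ᵀ) 1 *
          theta π₂ δ (s k * g) := by
      have e1 : (π₂ (δ (s k * g)⁻¹))ᵀ = (π₂ (δ (s k)⁻¹))ᵀ * (π₂ (δ g⁻¹))ᵀ := by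
        rw [← Matrix.transpose_mul, ← map_mul, ← map_mul, ← _root_.mul_inv_rev]
      have e2 : (π₂ (δ (s k)))ᵀ * (π₂ (δ (s k)⁻¹))ᵀ = 1 := by
        rw [← Matrix.transpose_mul, ← map_mul, ← map_mul, inv_mul_cancel, map_one, map_one,
          Matrix.transpose_one]
      rw [theta_apply, theta_apply, theta_apply, tens_mul, tens_mul, tens_mul, one_mul,
        one_mul, e1, map_mul δ]
      congr 1
      simp only [mul_assoc]
      rw [← mul_assoc ((π₂ (δ (s k)))ᵀ), e2, one_mul]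
    rw [h4, hexp]
    show (rho π₁ π₂ δ (s k)⁻¹ (Ψ (s k * g))) (p.1, p.2) = _
    rw [rho_apply, inv_inv, Matrix.mul_apply]
    simp only [Matrix.mul_apply, Matrix.transpose_apply, Finset.sum_mul]
    have h5 : ∀ a b, ∑ x, ∑ x', π₁ (δ (s k)⁻¹) x' a * Matrix.single p.1 p.2 (1 : ℂ) x' x *
        π₂ (δ (s k)) b x * Ψ (s k * g) (a, b) =
          π₁ (δ (s k)⁻¹) p.1 a * π₂ (δ (s k)) b p.2 * Ψ (s k * g) (a, b) := by
      intro a b
      rw [Finset.sum_eq_single p.2, Finset.sum_eq_single p.1]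
      · rw [Matrix.single_apply_same, mul_one]
      · intro x' _ hx'
        rw [Matrix.single_apply_of_ne _ _ _ _ _ (fun h => hx' h.1.symm), mul_zero, zero_mul,
          zero_mul]
      · intro h
        exact absurd (Finset.mem_univ _) h
      · intro x _ hx
        refine Finset.sum_eq_zero fun x' _ => ?_
        rw [Matrix.single_apply_of_ne _ _ _ _ _ (fun h => hx h.2.symm), mul_zero, zero_mul,
          zero_mul]
      · intro h
        exact absurd (Finset.mem_univ _) h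
    simp only [h5]
    rw [Finset.sum_comm]
    refine Finset.sum_congr rfl fun a _ => Finset.sum_congr rfl fun b _ => ?_
    rw [toM_apply]
    ring
  set C₀ : ℝ := (Fintype.card (n × n) + 1 : ℝ) *
      ((Fintype.card n : ℝ) * ((Fintype.card n : ℝ) * (c₁ * c₂))) with hC₀
  have hC₀0 : 0 ≤ C₀ := by positivity
  have hρ : ∀ g v, ‖rho π₁ π₂ δ g v‖ ≤ (C₀ + 1) * ‖v‖ := fun g v =>
    (rho_bound hc₁0 hc₂0 hc₁ hc₂ g v).trans
      (mul_le_mul_of_nonneg_right (by linarith) (norm_nonneg v))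
  have hL := liouville hρ s (by linarith) hK hr' hl' g (by rw [hs]; trivial)
  rw [hexp, hL, ← hexp, map_one, mul_one]

variable (hdense : (Submodule.span ℂ (Set.range δ)).topologicalClosure = ⊤)

include hdense

lemma functional_tens (Φ : Matrix n n A →ₗ[ℂ] ℂ) (K₀ : ℝ) (hΦ : ∀ x, ‖Φ x‖ ≤ K₀ * ‖x‖)
    (hr : ∀ y ∈ Jr (mm π₂ δ s), Φ y = 0) (hl : ∀ y ∈ Jl (mm π₁ δ s), Φ y = 0)
    (T : Matrix n n ℂ) (a : A) : Φ (tens T a) = Φ (tens (T * (π₂ a)ᵀ) 1) := by
  have hΦc : Continuous Φ := (Φ.mkContinuous K₀ hΦ).continuous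
  let L₁ : A →ₗ[ℂ] ℂ :=
    { toFun := fun a => Φ (tens T a)
      map_add' := fun a b => by
        rw [← map_add]
        congr 1
        ext i j
        simp only [tens_apply, Matrix.add_apply, smul_add]
      map_smul' := fun r a => by
        rw [RingHom.id_apply, ← map_smul]
        congr 1
        ext i j
        simp only [tens_apply, Matrix.smul_apply]
        rw [smul_comm] }
  let L₂ : A →ₗ[ℂ] ℂ :=
    { toFun := fun a => Φ (tens (T * (π₂ a)ᵀ) 1)
      map_add' := fun a b => by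
        rw [← map_add, map_add π₂, Matrix.transpose_add, mul_add, tens_add]
      map_smul' := fun r a => by
        rw [RingHom.id_apply, ← map_smul, map_smul π₂, Matrix.transpose_smul, mul_smul_comm,
          tens_smul] }
  have hL₁ : Continuous L₁ := hΦc.comp (continuous_tens T)
  have hL₂ : Continuous L₂ := by
    have h3 : Continuous fun T : Matrix n n ℂ => (tens T 1 : Matrix n n A) := by
      refine continuous_matrix fun i j => ?_
      simp only [tens_apply]
      have h4 : Continuous fun T : Matrix n n ℂ => T i j := by fun_prop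
      exact h4.smul continuous_const
    have h5 : Continuous fun a : A => T * (π₂ a)ᵀ := by fun_prop
    exact hΦc.comp (h3.comp h5)
  have hle : Submodule.span ℂ (Set.range δ) ≤ LinearMap.eqLocus L₁ L₂ := by
    rw [Submodule.span_le]
    rintro _ ⟨g, rfl⟩
    show Φ (tens T (δ g)) = Φ (tens (T * (π₂ (δ g))ᵀ) 1)
    rw [← functional_const h₁ h₂ hδ s hs Φ K₀ hΦ hr hl (T * (π₂ (δ g))ᵀ) g, theta_apply, tens_mul,
      one_mul, mul_assoc, ← Matrix.transpose_mul, ← map_mul, ← map_mul, inv_mul_cancel, map_one,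
      map_one, Matrix.transpose_one, mul_one]
  have hcl : IsClosed ((LinearMap.eqLocus L₁ L₂ : Submodule ℂ A) : Set A) :=
    isClosed_eq hL₁ hL₂
  have h6 : (Submodule.span ℂ (Set.range δ)).topologicalClosure ≤ LinearMap.eqLocus L₁ L₂ :=
    Submodule.topologicalClosure_minimal _ hle hcl
  rw [hdense] at h6
  exact h6 (Submodule.mem_top : a ∈ ⊤)

/-- **Main theorem.** A derivation with values in matrices vanishes on the common kernel of the two
representations. -/
theorem derivation_vanishes [CompleteSpace A] {D : A →ₗ[ℂ] Matrix n n ℂ}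
    (hD : ∀ a b, D (a * b) = π₁ a * D b + D a * π₂ b) {f : A} (hf₁ : π₁ f = 0) (hf₂ : π₂ f = 0) :
    D f = 0 := by
  have hcs := complete_matrix (A := A) (n := n)
  obtain ⟨c₁, hc₁0, hc₁⟩ := exists_bound h₁ hδ
  obtain ⟨c₂, hc₂0, hc₂⟩ := exists_bound h₂ hδ
  have hm₁' := mm_pow_bound π₁ δ s (theta_bound hδ hc₁)
  have hm₂' := mm_pow_bound π₂ δ s (theta_bound hδ hc₂)
  set K : ℝ := max ((Fintype.card n : ℝ) * ((Fintype.card n : ℝ) * c₁))
    ((Fintype.card n : ℝ) * ((Fintype.card n : ℝ) * c₂)) with hK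
  have hm₁ : ∀ j : ℕ, ‖(mm π₁ δ s) ^ j‖ ≤ K := fun j => (hm₁' j).trans (le_max_left _ _)
  have hm₂ : ∀ j : ℕ, ‖(mm π₂ δ s) ^ j‖ ≤ K := fun j => (hm₂' j).trans (le_max_right _ _)
  ext i j
  rw [Matrix.zero_apply]
  set F : Matrix n n A := tens (Matrix.single i j 1) f with hF
  have hlam : lam D F = D f i j := by
    rw [lam_apply, Finset.sum_eq_single i, Finset.sum_eq_single j]
    · rw [hF, tens_apply, Matrix.single_apply_same, one_smul]
    · intro b _ hb
      rw [hF, tens_apply, Matrix.single_apply_of_ne _ _ _ _ _ (fun h => hb h.2.symm), zero_smul,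
        map_zero, Matrix.zero_apply]
    · intro h
      exact absurd (Finset.mem_univ _) h
    · intro a _ ha
      refine Finset.sum_eq_zero fun b _ => ?_
      rw [hF, tens_apply, Matrix.single_apply_of_ne _ _ _ _ _ (fun h => ha h.1.symm), zero_smul,
        map_zero, Matrix.zero_apply]
    · intro h
      exact absurd (Finset.mem_univ _) h
  rw [← hlam]
  -- membership in the closure of the sum
  have hmem : F ∈ (Jr (mm π₂ δ s) ⊔ Jl (mm π₁ δ s)).topologicalClosure := by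
    by_contra hcon
    obtain ⟨Φ, K₀, hΦ, hΦ0, hΦF⟩ := exists_functional hcon
    apply hΦF
    rw [hF, functional_tens h₁ h₂ hδ s hs hdense Φ K₀ hΦ
      (fun y hy => hΦ0 y (Submodule.mem_sup_left hy))
      (fun y hy => hΦ0 y (Submodule.mem_sup_right hy)), hf₂, Matrix.transpose_zero, mul_zero]
    have : (tens (0 : Matrix n n ℂ) 1 : Matrix n n A) = 0 := by
      ext a b
      rw [tens_apply, Matrix.zero_apply, zero_smul, Matrix.zero_apply]
    rw [this, map_zero]
  obtain ⟨a, ha, b, hb, hab⟩ := closure_sum hm₁ hm₂ hmem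
  -- traces
  have kRa : kR π₂.toLinearMap a = 0 := kR_eq_zero δ s h₂ ha
  have kLb : kL π₁.toLinearMap b = 0 := kL_eq_zero δ s h₁ hb
  have kRF : kR π₂.toLinearMap F = 0 := by
    ext d c
    rw [kR_apply]
    refine Finset.sum_eq_zero fun b _ => ?_
    rw [hF, tens_apply, map_smul]
    have : π₂.toLinearMap f = 0 := hf₂
    rw [this, smul_zero, Matrix.zero_apply]
  have kLF : kL π₁.toLinearMap F = 0 := by
    ext d c
    rw [kL_apply]
    refine Finset.sum_eq_zero fun b _ => ?_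
    rw [hF, tens_apply, map_smul]
    have : π₁.toLinearMap f = 0 := hf₁
    rw [this, smul_zero, Matrix.zero_apply]
  have kLa : kL π₁.toLinearMap a = 0 := by
    have := kLF
    rw [hab, map_add, kLb, add_zero] at this
    exact this
  have kRb : kR π₂.toLinearMap b = 0 := by
    have := kRF
    rw [hab, map_add, kRa, zero_add] at this
    exact this
  -- the value at `a`
  have hla : lam D a = 0 := by
    obtain ⟨H, z, haz, hH, hz, hcomm⟩ := factor_Jr hm₂ ha
    have e1 : ∀ N, lam D a = ∑ c, ∑ d, kL π₁.toLinearMap (H * avg (mm π₂ δ s) N) d c *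
        kR D z d c := by
      intro N
      have e2 : lam D (a * (1 - avg (mm π₂ δ s) N)) = 0 := by
        rw [lam_mul hD, kLa]
        have e3 : kR π₂.toLinearMap (1 - avg (mm π₂ δ s) N) = 0 :=
          kR_eq_zero δ s h₂ (one_sub_avg_mem_Jr hm₂ N)
        rw [e3]
        simp
      have e4 : a = a * (1 - avg (mm π₂ δ s) N) + (H * avg (mm π₂ δ s) N) * z := by
        have e5 : (H * avg (mm π₂ δ s) N) * z = a * avg (mm π₂ δ s) N := by
          rw [haz, mul_assoc, mul_assoc, (commute_avg_of hcomm N).eq]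
        rw [e5]
        noncomm_ring
      rw [e4, map_add, e2, zero_add, lam_mul hD, kR_eq_zero δ s h₂ hz]
      simp
    have e6 : Tendsto (fun N => ∑ c, ∑ d, kL π₁.toLinearMap (H * avg (mm π₂ δ s) N) d c *
        kR D z d c) atTop (𝓝 (∑ _c : n, ∑ _d : n, (0 : ℂ))) := by
      refine tendsto_finsetSum _ fun c _ => tendsto_finsetSum _ fun d _ => ?_
      have e7 := ((continuous_kL h₁).tendsto 0).comp (mem_Jr.1 hH)
      rw [map_zero] at e7
      have e8 : Continuous fun M : Matrix n n ℂ => M d c := by fun_prop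
      have e9 := (e8.tendsto 0).comp e7
      have e10 := e9.mul_const (kR D z d c)
      rw [Matrix.zero_apply, zero_mul] at e10
      exact e10
    rw [Finset.sum_const_zero, Finset.sum_const_zero] at e6
    have e11 : (fun N => ∑ c, ∑ d, kL π₁.toLinearMap (H * avg (mm π₂ δ s) N) d c *
        kR D z d c) = fun _ => lam D a := funext fun N => (e1 N).symm
    rw [e11] at e6
    exact tendsto_nhds_unique tendsto_const_nhds e6
  have hlb : lam D b = 0 := by
    obtain ⟨z, H, haz, hH, hz, hcomm⟩ := factor_Jl hm₁ hb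
    have e1 : ∀ N, lam D b = ∑ c, ∑ d, kL D z d c *
        kR π₂.toLinearMap (avg (mm π₁ δ s) N * H) d c := by
      intro N
      have e2 : lam D ((1 - avg (mm π₁ δ s) N) * b) = 0 := by
        rw [lam_mul hD, kRb]
        have e3 : kL π₁.toLinearMap (1 - avg (mm π₁ δ s) N) = 0 :=
          kL_eq_zero δ s h₁ (one_sub_avg_mem_Jl hm₁ N)
        rw [e3]
        simp
      have e4 : b = (1 - avg (mm π₁ δ s) N) * b + z * (avg (mm π₁ δ s) N * H) := by
        have e5 : z * (avg (mm π₁ δ s) N * H) = avg (mm π₁ δ s) N * b := by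
          rw [haz, ← mul_assoc, ← mul_assoc, (commute_avg_of hcomm N).eq]
        rw [e5]
        noncomm_ring
      rw [e4, map_add, e2, zero_add, lam_mul hD, kL_eq_zero δ s h₁ hz]
      simp
    have e6 : Tendsto (fun N => ∑ c, ∑ d, kL D z d c *
        kR π₂.toLinearMap (avg (mm π₁ δ s) N * H) d c) atTop (𝓝 (∑ _c : n, ∑ _d : n, (0 : ℂ))) := by
      refine tendsto_finsetSum _ fun c _ => tendsto_finsetSum _ fun d _ => ?_
      have e7 := ((continuous_kR h₂).tendsto 0).comp (mem_Jl.1 hH)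
      rw [map_zero] at e7
      have e8 : Continuous fun M : Matrix n n ℂ => M d c := by fun_prop
      have e9 := (e8.tendsto 0).comp e7
      have e10 := e9.const_mul (kL D z d c)
      rw [Matrix.zero_apply, mul_zero] at e10
      exact e10
    rw [Finset.sum_const_zero, Finset.sum_const_zero] at e6
    have e11 : (fun N => ∑ c, ∑ d, kL D z d c *
        kR π₂.toLinearMap (avg (mm π₁ δ s) N * H) d c) = fun _ => lam D b :=
      funext fun N => (e1 N).symm
    rw [e11] at e6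
    exact tendsto_nhds_unique tendsto_const_nhds e6
  rw [hab, map_add, hla, hlb, add_zero]

end Key

end Pool.Agent.L7h53.I2
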