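import Pool.Agent.L7h53.I2.Cohen

/-!
# The left version of the factorization, and the sum of the two ideals
-/

set_option autoImplicit false

namespace Pool.Agent.L7h53.I2

open Filter Topology MulOpposite

variable {B : Type*} [NormedRing B] [NormedAlgebra ℂ B]

lemma avg_op (m : B) (N : ℕ) : avg (op m) N = op (avg m N) := by
  unfold avg
  rw [op_smul, Finset.op_sum]
  simp only [op_pow]

lemma mem_Jr_op {m x : B} : op x ∈ Jr (op m) ↔ x ∈ Jl m := by
  rw [mem_Jr, mem_Jl]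
  simp only [avg_op, ← op_mul]
  rw [← op_zero]
  constructor
  · intro h
    have := (continuous_unop.tendsto _).comp h
    exact this
  · intro h
    exact (continuous_op.tendsto _).comp h

/-- Factorization of the elements of `Jl m`. -/
theorem factor_Jl [CompleteSpace B] {m F : B} {C : ℝ} (hm : ∀ j : ℕ, ‖m ^ j‖ ≤ C) (hF : F ∈ Jl m) :
    ∃ z H : B, F = z * H ∧ H ∈ Jl m ∧ z ∈ Jl m ∧ Commute z m := by
  have hm' : ∀ j : ℕ, ‖(op m) ^ j‖ ≤ C := fun j => by
    rw [← op_pow, norm_op]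
    exact hm j
  obtain ⟨H, z, h1, h2, h3, h4⟩ := factor_Jr hm' (mem_Jr_op.2 hF)
  refine ⟨unop z, unop H, ?_, ?_, ?_, ?_⟩
  · rw [← unop_mul, ← h1, unop_op]
  · rw [← mem_Jr_op, op_unop]; exact h2
  · rw [← mem_Jr_op, op_unop]; exact h3
  · have := congrArg unop h4.eq
    rw [unop_mul, unop_mul, unop_op] at this
    exact this.symm

/-- The sum of the closed left ideal `Jr m₂` and the closed right ideal `Jl m₁` is closed. -/
theorem closure_sum [CompleteSpace B] {m₁ m₂ : B} {C : ℝ} (h1 : ∀ j : ℕ, ‖m₁ ^ j‖ ≤ C)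
    (h2 : ∀ j : ℕ, ‖m₂ ^ j‖ ≤ C) {F : B} (hF : F ∈ (Jr m₂ ⊔ Jl m₁).topologicalClosure) :
    ∃ a ∈ Jr m₂, ∃ b ∈ Jl m₁, F = a + b := by
  have hC : 0 ≤ C := (norm_nonneg _).trans (h1 0)
  have : CompleteSpace (Jr m₂) := (isClosed_Jr h2).completeSpace_coe
  have : CompleteSpace (Jl m₁) := (isClosed_Jl h1).completeSpace_coe
  let f0 : (Jr m₂ × Jl m₁) →L[ℂ] B := (Jr m₂).subtypeL.coprod (Jl m₁).subtypeL
  let f : NormedAddGroupHom (Jr m₂ × Jl m₁) B :=
    { toFun := f0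
      map_add' := f0.map_add
      bound' := ⟨‖f0‖, f0.le_opNorm⟩ }
  have hf : ∀ p : Jr m₂ × Jl m₁, f p = (p.1 : B) + (p.2 : B) := fun p => rfl
  let K : AddSubgroup B := (Jr m₂ ⊔ Jl m₁).toAddSubgroup
  have hCp : (0 : ℝ) < 2 * ((C + 1) * (C + 1) + (C + 1)) := by positivity
  have hsurj : f.SurjectiveOnWith K (2 * ((C + 1) * (C + 1) + (C + 1))) := by
    intro x hx
    by_cases hx0 : x = 0
    · refine ⟨0, ?_, ?_⟩
      · rw [map_zero, hx0]
      · rw [hx0, norm_zero, norm_zero, mul_zero]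
    have hxpos : 0 < ‖x‖ := norm_pos_iff.2 hx0
    obtain ⟨a, ha, b, hb, hab⟩ := Submodule.mem_sup.1 (show x ∈ Jr m₂ ⊔ Jl m₁ from hx)
    have ea : Tendsto (fun N => ‖a * avg m₂ N‖) atTop (𝓝 0) :=
      tendsto_zero_iff_norm_tendsto_zero.1 ha
    have eb : Tendsto (fun N => ‖avg m₁ N * b‖) atTop (𝓝 0) :=
      tendsto_zero_iff_norm_tendsto_zero.1 hb
    obtain ⟨N, hN⟩ := (ea.eventually (gt_mem_nhds hxpos)).exists
    obtain ⟨M, hM⟩ := (eb.eventually (gt_mem_nhds hxpos)).exists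
    have hcN : Commute (avg m₂ N) m₂ := (commute_avg m₂ N).symm
    have hcM : Commute (avg m₁ M) m₁ := (commute_avg m₁ M).symm
    have p1 : x * (1 - avg m₂ N) + avg m₁ M * (a * avg m₂ N) ∈ Jr m₂ := by
      refine (Jr m₂).add_mem (mul_mem_Jr (one_sub_avg_mem_Jr h2 N) _) ?_
      exact mul_mem_Jr (mul_comm_mem_Jr ha hcN) _
    have p2 : (1 - avg m₁ M) * (x * avg m₂ N) + (avg m₁ M * b) * avg m₂ N ∈ Jl m₁ := by
      refine (Jl m₁).add_mem (mul_mem_Jl (one_sub_avg_mem_Jl h1 M) _) ?_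
      exact mul_mem_Jl (mul_comm_mem_Jl hb hcM) _
    have n1 : ‖(1 : B)‖ ≤ C := by simpa using h1 0
    have q1 : ‖x * (1 - avg m₂ N) + avg m₁ M * (a * avg m₂ N)‖ ≤
        2 * ((C + 1) * (C + 1) + (C + 1)) * ‖x‖ := by
      have t1 : ‖x * (1 - avg m₂ N)‖ ≤ ‖x‖ * (C + C) := by
        refine (norm_mul_le _ _).trans (mul_le_mul_of_nonneg_left ?_ (norm_nonneg _))
        exact (norm_sub_le _ _).trans (add_le_add n1 (norm_avg_le h2 N))
      have t2 : ‖avg m₁ M * (a * avg m₂ N)‖ ≤ C * ‖x‖ := by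
        refine (norm_mul_le _ _).trans ?_
        exact mul_le_mul (norm_avg_le h1 M) hN.le (norm_nonneg _) hC
      refine (norm_add_le _ _).trans ((add_le_add t1 t2).trans ?_)
      nlinarith [mul_nonneg hC hC, mul_nonneg (mul_nonneg hC hC) hxpos.le]
    have q2 : ‖(1 - avg m₁ M) * (x * avg m₂ N) + (avg m₁ M * b) * avg m₂ N‖ ≤
        2 * ((C + 1) * (C + 1) + (C + 1)) * ‖x‖ := by
      have t1 : ‖(1 - avg m₁ M) * (x * avg m₂ N)‖ ≤ (C + C) * (‖x‖ * C) := by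
        refine (norm_mul_le _ _).trans ?_
        refine mul_le_mul ((norm_sub_le _ _).trans (add_le_add n1 (norm_avg_le h1 M))) ?_
          (norm_nonneg _) (by linarith)
        exact (norm_mul_le _ _).trans (mul_le_mul_of_nonneg_left (norm_avg_le h2 N) (norm_nonneg _))
      have t2 : ‖(avg m₁ M * b) * avg m₂ N‖ ≤ ‖x‖ * C := by
        refine (norm_mul_le _ _).trans ?_
        exact mul_le_mul hM.le (norm_avg_le h2 N) (norm_nonneg _) hxpos.le
      refine (norm_add_le _ _).trans ((add_le_add t1 t2).trans ?_)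
      nlinarith [mul_nonneg hC hC, mul_nonneg (mul_nonneg hC hC) hxpos.le]
    refine ⟨(⟨_, p1⟩, ⟨_, p2⟩), ?_, ?_⟩
    · rw [hf]
      show (x * (1 - avg m₂ N) + avg m₁ M * (a * avg m₂ N)) +
        ((1 - avg m₁ M) * (x * avg m₂ N) + (avg m₁ M * b) * avg m₂ N) = x
      rw [← hab]
      noncomm_ring
    · exact (Prod.norm_def _).trans_le (max_le q1 q2)
  have hcl := controlled_closure_of_complete hCp zero_lt_one hsurj
  have hF' : F ∈ K.topologicalClosure := hF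
  obtain ⟨g, hg, -⟩ := hcl F hF'
  exact ⟨g.1, g.1.2, g.2, g.2.2, by rw [← hg, hf]⟩

end Pool.Agent.L7h53.I2
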